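import Pool.Agent.TH115.TC.Compl

/-!
# An embedding of `M` in a completion of `F` extends to a completion of `M`

After `N816/PQ/Emb.lean` (helper816) and `TH115/TC/Compl.lean` (helper115).
-/

set_option autoImplicit false
set_option linter.all false

open IsDedekindDomain WithZero Filter Topology MonoidWithZeroHom NumberField

namespace Pool.Agent.L0h51.TM

section

variable {F M : Type} [Field F] [NumberField F] [Field M] [NumberField M] [Algebra F M]
  {w : HeightOneSpectrum (𝓞 F)} (φ : M →ₐ[F] w.adicCompletion F)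

theorem int_le (x : 𝓞 M) : Valued.v (φ (algebraMap (𝓞 M) M x)) ≤ 1 := by
  obtain ⟨p, hp, hx⟩ := x.2
  have h3 : IsIntegral (Valued.v (R := w.adicCompletion F)).integer
      (φ (algebraMap (𝓞 M) M x)) := by
    refine ⟨p.map (Int.castRingHom _), hp.map _, ?_⟩
    have h4 := congrArg (φ : M →+* w.adicCompletion F) hx
    rw [map_zero, Polynomial.hom_eval₂] at h4
    rw [Polynomial.eval₂_map]
    convert h4 using 1
    congr 1
    exact RingHom.ext_int _ _
  exact (Valuation.integer.integers (Valued.v (R := w.adicCompletion F))).mem_of_integral h3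

/-- The prime ideal. -/
def pI : Ideal (𝓞 M) where
  carrier := {x | Valued.v (φ (algebraMap (𝓞 M) M x)) < 1}
  add_mem' := by
    intro a b ha hb
    rw [Set.mem_setOf_eq, map_add, map_add]
    exact lt_of_le_of_lt (Valuation.map_add _ _ _) (max_lt ha hb)
  zero_mem' := by
    rw [Set.mem_setOf_eq, map_zero, map_zero, map_zero]
    exact zero_lt_one
  smul_mem' := by
    intro c x hx
    rw [Set.mem_setOf_eq, smul_eq_mul, map_mul, map_mul, map_mul, mul_comm]
    exact mul_lt_one_of_lt_of_le hx (int_le φ c)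

theorem mem_pI (x : 𝓞 M) : x ∈ pI φ ↔ Valued.v (φ (algebraMap (𝓞 M) M x)) < 1 := Iff.rfl

theorem val_F (a : F) : Valued.v (φ (algebraMap F M a)) = w.valuation F a := by
  rw [φ.commutes]
  exact HeightOneSpectrum.valuedAdicCompletion_eq_valuation' w a

/-- The place. -/
def pl : HeightOneSpectrum (𝓞 M) where
  asIdeal := pI φ
  isPrime := by
    rw [Ideal.isPrime_iff]
    constructor
    · intro h
      rw [Ideal.eq_top_iff_one, mem_pI, map_one, map_one, map_one] at h
      exact lt_irrefl _ h
    · intro x y hxy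
      rw [mem_pI, map_mul, map_mul, map_mul] at hxy
      by_contra hcon
      rw [not_or, mem_pI, mem_pI, not_lt, not_lt] at hcon
      have := mul_le_mul' hcon.1 hcon.2
      rw [one_mul] at this
      exact absurd hxy (not_lt.2 this)
  ne_bot := by
    intro h0
    obtain ⟨a, ha, ha0⟩ := Submodule.exists_mem_ne_zero_of_ne_bot w.ne_bot
    have h1 : (algebraMap (𝓞 F) (𝓞 M) a) ∈ pI φ := by
      rw [mem_pI, ← IsScalarTower.algebraMap_apply, IsScalarTower.algebraMap_apply (𝓞 F) F M,
        val_F]
      exact (HeightOneSpectrum.valuation_lt_one_iff_mem (K := F) w a).2 ha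
    rw [h0, Ideal.mem_bot] at h1
    exact ha0 ((map_eq_zero_iff _ (FaithfulSMul.algebraMap_injective (𝓞 F) (𝓞 M))).1 h1)

theorem le_of (x : M) (hx : (pl φ).valuation M x ≤ 1) : Valued.v (φ x) ≤ 1 := by
  obtain ⟨n, d, hnd⟩ := (pl φ).exists_primeCompl_mul_eq_of_integer x hx
  have hd : Valued.v (φ (algebraMap (𝓞 M) M d)) = 1 := by
    refine le_antisymm (int_le φ _) (not_lt.1 fun h => ?_)
    exact d.2 ((mem_pI φ _).2 h)
  have h1 := congrArg (fun y => Valued.v (φ y)) hnd
  simp only [map_mul, hd, mul_one] at h1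
  rw [h1]
  exact int_le φ n

theorem lt_of (x : M) (hx : (pl φ).valuation M x < 1) : Valued.v (φ x) < 1 := by
  obtain ⟨n, d, hnd⟩ := (pl φ).exists_primeCompl_mul_eq_of_integer x hx.le
  have hd : Valued.v (φ (algebraMap (𝓞 M) M d)) = 1 := by
    refine le_antisymm (int_le φ _) (not_lt.1 fun h => ?_)
    exact d.2 ((mem_pI φ _).2 h)
  have h1 := congrArg (fun y => Valued.v (φ y)) hnd
  simp only [map_mul, hd, mul_one] at h1
  rw [h1, ← mem_pI]
  have h2 : (pl φ).valuation M (algebraMap (𝓞 M) M n) < 1 := by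
    rw [← hnd, map_mul]
    exact mul_lt_one_of_lt_of_le hx ((pl φ).valuation_le_one _)
  exact ((pl φ).valuation_lt_one_iff_mem n).1 h2

theorem exp_bound {π : M} (hπ : (pl φ).valuation M π = exp (-1 : ℤ)) (n : ℕ) (x : M)
    (hx : (pl φ).valuation M x < (pl φ).valuation M (π ^ n)) :
    Valued.v (φ x) ≤ exp (-(n : ℤ)) := by
  have hπ0 : π ≠ 0 := by
    rintro rfl
    rw [map_zero] at hπ
    exact exp_ne_zero hπ.symm
  have e : x = π ^ n * (x / π ^ n) := by
    field_simp
  have h3 : (pl φ).valuation M (x / π ^ n) ≤ 1 := by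
    rw [map_div₀]
    have hp : (pl φ).valuation M (π ^ n) ≠ 0 := (Valuation.ne_zero_iff _).2 (pow_ne_zero n hπ0)
    exact (div_le_one₀ (zero_lt_iff.2 hp)).2 hx.le
  have h4 : Valued.v (φ π) ≤ exp (-1 : ℤ) := by
    have h5 := lt_of φ π (by rw [hπ, ← exp_zero, exp_lt_exp]; norm_num)
    by_cases h0 : Valued.v (φ π) = 0
    · rw [h0]; exact zero_le
    · have h6 : exp (log (Valued.v (φ π))) = Valued.v (φ π) := exp_log h0
      rw [← h6, ← exp_zero, exp_lt_exp] at h5
      rw [← h6, exp_le_exp]
      omega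
  rw [e, map_mul φ, map_mul, map_pow φ, map_pow]
  calc Valued.v (φ π) ^ n * Valued.v (φ (x / π ^ n))
      ≤ exp (-1 : ℤ) ^ n * 1 := mul_le_mul' (pow_le_pow_left₀ zero_le h4 n) (le_of φ _ h3)
    _ = exp (-(n : ℤ)) := by
      rw [mul_one, ← exp_nsmul]
      congr 1
      simp

/-- The field with the topology of the valuation. -/
noncomputable def wf : WithVal ((pl φ).valuation M) →+* w.adicCompletion F :=
  (φ : M →+* w.adicCompletion F).comp (WithVal.equiv ((pl φ).valuation M)).toRingHom

theorem wf_cont : Continuous (wf φ) := by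
  have key : ContinuousAt (wf φ).toAddMonoidHom 0 := by
    show Tendsto (wf φ) (𝓝 0) (𝓝 (wf φ 0))
    rw [map_zero]
    intro s hs
    obtain ⟨γ, hγ⟩ := Valued.mem_nhds_zero.1 hs
    have hg : ValueGroup₀.embedding γ.1 ≠ 0 := by
      rw [Ne, map_eq_zero]
      exact γ.ne_zero
    obtain ⟨n, hn, -⟩ := exists_exp_neg_natCast_lt_and_lt hg hg
    obtain ⟨π, hπ⟩ := (pl φ).valuation_exists_uniformizer M
    have hπ0 : π ≠ 0 := by
      rintro rfl
      rw [map_zero] at hπ
      exact exp_ne_zero hπ.symm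
    have hne : (Valued.v (R := WithVal ((pl φ).valuation M))).restrict
        (WithVal.toVal ((pl φ).valuation M) (π ^ n)) ≠ 0 := by
      rw [Valuation.ne_zero_iff]
      intro h
      exact pow_ne_zero n hπ0 ((WithVal.toVal_eq_zero _ _).1 h)
    rw [Filter.mem_map, Valued.mem_nhds_zero]
    refine ⟨Units.mk0 _ hne, fun x hx => hγ ?_⟩
    have hx' : Valued.v x < Valued.v (WithVal.toVal ((pl φ).valuation M) (π ^ n)) :=
      (Valuation.restrict_lt_iff _).1 hx
    show (Valued.v (R := w.adicCompletion F)).restrict (wf φ x) < γ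
    rw [Valuation.restrict_lt_iff_lt_embedding]
    refine lt_of_le_of_lt ?_ hn
    exact exp_bound φ hπ n _ hx'
  exact continuous_of_continuousAt_zero (wf φ).toAddMonoidHom key

end

/-- An `F`-embedding of `M` in the completion `F_w` extends to a completion of `M`. -/
theorem emb_ext {F M : Type} [Field F] [NumberField F] [Field M] [NumberField M] [Algebra F M]
    (w : HeightOneSpectrum (𝓞 F)) (φ : M →ₐ[F] w.adicCompletion F) :
    ∃ (w' : HeightOneSpectrum (𝓞 M)) (j : w'.adicCompletion M →+* w.adicCompletion F),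
      ∀ x : M, j (algebraMap M (w'.adicCompletion M) x) = φ x := by
  have hc := wf_cont φ
  refine ⟨pl φ, (UniformSpace.Completion.extensionHom (wf φ) hc).comp
    (HeightOneSpectrum.adicCompletion.equiv M (pl φ)).toRingHom, fun x => ?_⟩
  exact UniformSpace.Completion.extensionHom_coe (wf φ) hc (WithVal.toVal _ x)

end Pool.Agent.L0h51.TM
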