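import Pool.Agent.N78.PF.Loc
import Pool.Agent.N667.PV.Ext
import Pool.Agent.L0h51.TM.Emb

/-!
# The local conditions over the extension `M`: formal properties
-/

set_option autoImplicit false
set_option linter.all false

open Polynomial IsDedekindDomain NumberField WithZero
open scoped Classical

namespace Pool.Agent.L0h51.TM

open Pool.Agent.N874.PP (Ev Sq1 U0)
open Pool.Agent.N783.PQ (LocIm)
open Pool.Agent.N874.JM (LocF)
open Pool.Agent.N874.PM (Lies)

section loc

theorem locIm_map {E E' : Type} [Field E] [Field E'] (j : E →+* E') {f h : E[X]}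
    (H : LocIm E f h) : LocIm E' (f.map j) (h.map j) := by
  obtain ⟨l, s, h1, h2⟩ := H
  refine ⟨l.map fun p => (p.1.map j, p.2.map j), s.map j, ?_, ?_⟩
  · intro p hp
    obtain ⟨p₀, hp₀, rfl⟩ := List.mem_map.1 hp
    obtain ⟨a1, a2, a3⟩ := h1 p₀ hp₀
    refine ⟨a1.map _, ?_, ?_⟩
    · have := a2.map (mapRingHom j)
      simpa using this
    · have := Polynomial.map_dvd j a3
      simpa using this
  · have h3 := Polynomial.map_dvd j h2
    have e : (l.map fun p : E[X] × E[X] => (-1) ^ p.1.natDegree * p.1).prod.map j =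
        ((l.map fun p : E[X] × E[X] => (p.1.map j, p.2.map j)).map fun p : E'[X] × E'[X] =>
          (-1) ^ p.1.natDegree * p.1).prod := by
      rw [← coe_mapRingHom, map_list_prod, List.map_map, List.map_map]
      congr 1
      refine List.map_congr_left fun p _ => ?_
      simp only [Function.comp_apply, coe_mapRingHom, Polynomial.map_mul, Polynomial.map_pow,
        Polynomial.map_neg, Polynomial.map_one, natDegree_map]
    rw [← e]
    simpa using h3

theorem locIm_mul {E : Type} [Field E] {f h h' k : E[X]} (H : LocIm E f h) (H' : LocIm E f h')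
    (hk : f ∣ k - h * h') : LocIm E f k := by
  obtain ⟨l, s, h1, h2⟩ := H
  obtain ⟨l', s', h1', h2'⟩ := H'
  refine ⟨l ++ l', s * s', ?_, ?_⟩
  · intro p hp
    rcases List.mem_append.1 hp with hp | hp
    · exact h1 p hp
    · exact h1' p hp
  · rw [List.map_append, List.prod_append]
    obtain ⟨a, ha⟩ := hk
    obtain ⟨b, hb⟩ := h2
    obtain ⟨c, hc⟩ := h2'
    generalize (l.map fun p => (-1) ^ p.1.natDegree * p.1).prod = P at *
    generalize (l'.map fun p => (-1) ^ p.1.natDegree * p.1).prod = P' at *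
    refine ⟨a * (P * P') + b * (h' * P') + s ^ 2 * c, ?_⟩
    linear_combination (P * P') * ha + (h' * P') * hb + s ^ 2 * hc

theorem locIm_sq {E : Type} [Field E] {f k s : E[X]} (hk : f ∣ k - s ^ 2) : LocIm E f k :=
  ⟨[], s, by simp, by simpa using hk⟩

end loc

section cc

/-- The local conditions over `M` for the element `x = h(t)` of `Ω = M(t)`. -/
def CC (M : Type) {Ω : Type} [Field M] [NumberField M] [Field Ω] [Algebra M Ω] (f : M[X])
    (t x : Ω) : Prop :=
  ∀ h : M[X], aeval t h = x →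
    (∀ w : HeightOneSpectrum (𝓞 M), LocF (w.adicCompletion M) f h) ∧
    ∀ τ : M →+* ℝ, LocIm ℝ (f.map τ) (h.map τ)

variable {M Ω : Type} [Field M] [NumberField M] [Field Ω] [Algebra M Ω] {f : M[X]} {t : Ω}

theorem cc_sq (hmin : ∀ p : M[X], aeval t p = 0 → f ∣ p)
    (hsur : ∀ x : Ω, ∃ p : M[X], aeval t p = x) (x : Ω) : CC M f t (x ^ 2) := by
  intro h hh
  obtain ⟨p, hp⟩ := hsur x
  have h1 : f ∣ h - p ^ 2 := hmin _ (by rw [map_sub, map_pow, hp, hh, sub_self])
  refine ⟨fun w => ?_, fun τ => ?_⟩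
  · have h2 := Polynomial.map_dvd (algebraMap M (w.adicCompletion M)) h1
    rw [Polynomial.map_sub, Polynomial.map_pow] at h2
    exact locIm_sq h2
  · have h2 := Polynomial.map_dvd τ h1
    rw [Polynomial.map_sub, Polynomial.map_pow] at h2
    exact locIm_sq h2

theorem cc_mul (hmin : ∀ p : M[X], aeval t p = 0 → f ∣ p)
    (hsur : ∀ x : Ω, ∃ p : M[X], aeval t p = x) {x y : Ω} (hx : CC M f t x) (hy : CC M f t y) :
    CC M f t (x * y) := by
  intro h hh
  obtain ⟨p, hp⟩ := hsur x
  obtain ⟨p', hp'⟩ := hsur y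
  have h1 : f ∣ h - p * p' := hmin _ (by rw [map_sub, map_mul, hp, hp', hh, sub_self])
  refine ⟨fun w => ?_, fun τ => ?_⟩
  · have h2 := Polynomial.map_dvd (algebraMap M (w.adicCompletion M)) h1
    rw [Polynomial.map_sub, Polynomial.map_mul] at h2
    exact locIm_mul ((hx p hp).1 w) ((hy p' hp').1 w) h2
  · have h2 := Polynomial.map_dvd τ h1
    rw [Polynomial.map_sub, Polynomial.map_mul] at h2
    exact locIm_mul ((hx p hp).2 τ) ((hy p' hp').2 τ) h2

theorem cc_aut (ρ : M ≃+* M) (hf : f.map (ρ : M →+* M) = f) (σ : Ω ≃+* Ω) (hσt : σ t = t)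
    (hσ : ∀ m : M, σ (algebraMap M Ω m) = algebraMap M Ω (ρ m)) {x : Ω} (hx : CC M f t x) :
    CC M f t (σ x) := by
  intro h hh
  have hσ' : ∀ m : M, σ.symm (algebraMap M Ω m) = algebraMap M Ω (ρ.symm m) := by
    intro m
    rw [RingEquiv.symm_apply_eq, hσ, RingEquiv.apply_symm_apply]
  have h1 : aeval t (h.map (ρ.symm : M →+* M)) = x := by
    have e1 : σ.symm (aeval t h) = x := by rw [hh, RingEquiv.symm_apply_apply]
    have hst : σ.symm t = t := by rw [RingEquiv.symm_apply_eq, hσt]
    rw [← e1, aeval_def, aeval_def, eval₂_map]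
    have e2 := Polynomial.hom_eval₂ h (algebraMap M Ω) (σ.symm : Ω →+* Ω) t
    rw [RingEquiv.coe_toRingHom] at e2
    rw [e2, hst]
    congr 1
    ext m
    exact (hσ' m).symm
  obtain ⟨h2, h3⟩ := hx _ h1
  have hρ : (ρ : M →+* M).comp (ρ.symm : M →+* M) = RingHom.id M := by
    ext m
    simp
  refine ⟨fun w => ?_, fun τ => ?_⟩
  · obtain ⟨w', s, hs, -⟩ := Pool.Agent.N667.PV.ext M (𝓞 M) ρ w
    have h4 := locIm_map s (h2 w')
    have e3 : s.comp (algebraMap M (w'.adicCompletion M)) =
        (algebraMap M (w.adicCompletion M)).comp (ρ : M →+* M) :=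
      RingHom.ext fun m => hs m
    have ef : (f.map (algebraMap M (w'.adicCompletion M))).map s =
        f.map (algebraMap M (w.adicCompletion M)) := by
      rw [Polynomial.map_map, e3, ← Polynomial.map_map, hf]
    have eh : ((h.map (ρ.symm : M →+* M)).map (algebraMap M (w'.adicCompletion M))).map s =
        h.map (algebraMap M (w.adicCompletion M)) := by
      rw [Polynomial.map_map, e3, ← Polynomial.map_map,
        Polynomial.map_map (ρ.symm : M →+* M) (ρ : M →+* M), hρ, Polynomial.map_id]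
    rw [ef, eh] at h4
    exact h4
  · have h4 := h3 (τ.comp (ρ : M →+* M))
    have ef : f.map (τ.comp (ρ : M →+* M)) = f.map τ := by
      rw [← Polynomial.map_map, hf]
    have eh : (h.map (ρ.symm : M →+* M)).map (τ.comp (ρ : M →+* M)) = h.map τ := by
      rw [← Polynomial.map_map, Polynomial.map_map (ρ.symm : M →+* M) (ρ : M →+* M), hρ,
        Polynomial.map_id]
    rw [ef, eh] at h4
    exact h4

end cc

end Pool.Agent.L0h51.TM
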