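import Pool.Agent.L0h51.TM.Res
import Pool.Agent.N362.PQ.UR
import Pool.Agent.N296.PQ.SPD
import Pool.Agent.N951.PF.Fam

/-!
# From the local conditions over `M` to the local conditions over `F`
-/

set_option autoImplicit false
set_option linter.all false

open Polynomial IsDedekindDomain NumberField WithZero
open scoped Classical

namespace Pool.Agent.L0h51.TM

open Pool.Agent.N874.PP (Ev Sq1 U0)
open Pool.Agent.N783.PQ (LocIm)
open Pool.Agent.N874.JM (LocF)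
open Pool.Agent.N874.PM (Lies)
open Pool.Agent.N783.PF
open Pool.Agent.N922.PQ (ev_down sq_down Gen SplitMod ov_val ov_down)
open Pool.Agent.N78.PF (LOC1 LOC2 fF_scale eq_of_ov val_one two_cast val_theta val_der rd_eq sp_le)

section

variable {F L M Ω : Type} [Field F] [NumberField F] [Field L] [NumberField L] [Field M]
  [NumberField M] [Field Ω] [NumberField Ω] [Algebra F L] [Algebra F M] [Algebra L Ω]
  [Algebra M Ω] [Algebra F Ω] [IsScalarTower F L Ω] [IsScalarTower F M Ω]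

theorem fD_eq {f : (𝓞 F)[X]} (hm : f.Monic) (D : ℕ) :
    (fF (f.scaleRoots ((D : ℕ) : 𝓞 F))).map (algebraMap F M) =
      ((fF f).map (algebraMap F M)).scaleRoots ((D : ℕ) : M) := by
  rw [fF_scale hm, map_scaleRoots]
  · rw [map_natCast]
  · rw [(hm.map (algebraMap (𝓞 F) F)).leadingCoeff, map_one]
    exact one_ne_zero

theorem aeval_up (h : F[X]) (y : L) :
    aeval (algebraMap L Ω y) (h.map (algebraMap F M)) = algebraMap L Ω (aeval y h) := by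
  rw [aeval_map_algebraMap, aeval_algebraMap_apply]

theorem alg_comm (a : F) : algebraMap M Ω (algebraMap F M a) = algebraMap L Ω (algebraMap F L a) := by
  rw [← IsScalarTower.algebraMap_apply, ← IsScalarTower.algebraMap_apply]

theorem nat_unit {w : HeightOneSpectrum (𝓞 F)} {𝔓 : HeightOneSpectrum (𝓞 L)}
    {𝔓' : HeightOneSpectrum (𝓞 Ω)} {w' : HeightOneSpectrum (𝓞 M)}
    (hL : Lies (M := F) (Ω := L) w 𝔓)
    (hv : ∀ x : L, 𝔓'.valuation Ω (algebraMap L Ω x) = 𝔓.valuation L x)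
    (hw' : Lies (M := M) (Ω := Ω) w' 𝔓') (n : ℕ) (hn : (n : 𝓞 F) ∉ w.asIdeal) :
    w'.valuation M ((n : ℕ) : M) = 1 := by
  have h1 : w.valuation F (n : F) = 1 := by
    have := val_one hn
    simpa using this
  have h2 := unit_up hL h1
  rw [map_natCast] at h2
  refine unit_down hw' ?_ ?_
  · have := w'.valuation_le_one (K := M) ((n : ℕ) : 𝓞 M)
    simpa using this
  · rw [map_natCast, ← map_natCast (algebraMap L Ω), hv]
    exact h2

theorem same_val {w w₀ : HeightOneSpectrum (𝓞 F)} {𝔓 : HeightOneSpectrum (𝓞 L)}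
    {𝔓' : HeightOneSpectrum (𝓞 Ω)} {w' : HeightOneSpectrum (𝓞 M)}
    (hL2 : ∀ a : 𝓞 F, a ∈ w.asIdeal ↔ algebraMap (𝓞 F) (𝓞 L) a ∈ 𝔓.asIdeal)
    (hv : ∀ x : L, 𝔓'.valuation Ω (algebraMap L Ω x) = 𝔓.valuation L x)
    (hw' : Lies (M := M) (Ω := Ω) w' 𝔓')
    (h0 : ∀ x : F, w'.valuation M (algebraMap F M x) = w₀.valuation F x) : w₀ = w := by
  apply HeightOneSpectrum.ext
  refine w₀.isMaximal.eq_of_le w.isPrime.ne_top fun a ha => ?_
  have h1 : w₀.valuation F (algebraMap (𝓞 F) F a) < 1 :=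
    (HeightOneSpectrum.valuation_lt_one_iff_mem (K := F) w₀ a).2 ha
  rw [← h0] at h1
  have h2 := hw'.lt _ h1
  rw [alg_comm (L := L), hv] at h2
  rw [hL2, ← HeightOneSpectrum.valuation_lt_one_iff_mem (K := L)]
  exact h2

theorem ev_unitM {g : ℕ} {f : (𝓞 F)[X]} {θ : L} (hG : IsGen g f θ)
    {w : HeightOneSpectrum (𝓞 F)} {𝔓 : HeightOneSpectrum (𝓞 L)}
    (hL : Lies (M := F) (Ω := L) w 𝔓) (h2 : (2 : 𝓞 F) ∉ w.asIdeal) {D : ℕ}
    (hD : (D : 𝓞 F) ∉ w.asIdeal) {𝔓' : HeightOneSpectrum (𝓞 Ω)}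
    (hv : ∀ x : L, 𝔓'.valuation Ω (algebraMap L Ω x) = 𝔓.valuation L x)
    (hder : 𝔓.valuation L (aeval θ (derivative (fF f))) = 1) (h : F[X])
    (hne : aeval ((D : L) * θ) h ≠ 0)
    (hC : CC M ((fF (f.scaleRoots ((D : ℕ) : 𝓞 F))).map (algebraMap F M))
      ((D : Ω) * algebraMap L Ω θ) (algebraMap L Ω (aeval ((D : L) * θ) h))) :
    Ev 𝔓 (aeval ((D : L) * θ) h) := by
  obtain ⟨w', hw', -⟩ := Pool.Agent.N415.PQ.lie M Ω (𝓞 M) (𝓞 Ω) 𝔓'
  have et : (D : Ω) * algebraMap L Ω θ = algebraMap L Ω ((D : L) * θ) := by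
    rw [map_mul, map_natCast]
  have eH : aeval ((D : Ω) * algebraMap L Ω θ) (h.map (algebraMap F M)) =
      algebraMap L Ω (aeval ((D : L) * θ) h) := by
    rw [et, aeval_up]
  have hloc := (hC _ eH).1 w'
  rw [fD_eq hG.mon] at hloc
  have hmF : (fF f).Monic := hG.mon.map _
  have e2 : (2 : M) = ((2 : ℕ) : M) := by norm_num
  have h5 := LOC1 M Ω (𝓞 M) (𝓞 Ω) w' 𝔓' hw'
    (by rw [e2]; exact nat_unit hL hv hw' 2 (by exact_mod_cast h2))
    ((fF f).map (algebraMap F M)) (h.map (algebraMap F M)) ((D : ℕ) : M) (algebraMap L Ω θ)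
    (hmF.map _)
    (by rw [hmF.natDegree_map, hG.mon.natDegree_map, hG.deg]; exact ⟨g, rfl⟩)
    (fun i => by
      rw [coeff_map, coeff_map, ← IsScalarTower.algebraMap_apply (𝓞 F) F M,
        IsScalarTower.algebraMap_apply (𝓞 F) (𝓞 M) M]
      exact w'.valuation_le_one _)
    (by rw [aeval_up, hG.root, map_zero])
    (by
      rw [derivative_map, aeval_up, hv]
      exact hder)
    (nat_unit hL hv hw' D hD) hloc
  have e5 : algebraMap M Ω ((D : ℕ) : M) * algebraMap L Ω θ = (D : Ω) * algebraMap L Ω θ := by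
    rw [map_natCast]
  rw [e5, eH] at h5
  refine (ev_down hv _).1 (h5 ?_)
  rw [Ne, map_eq_zero]
  exact hne

theorem u0M {g : ℕ} {f r₀ : (𝓞 F)[X]} {θ : L} (hg : 1 ≤ g) (hG : IsGen g f θ)
    {w : HeightOneSpectrum (𝓞 F)} {𝔓 : HeightOneSpectrum (𝓞 L)}
    (hL : Lies (M := F) (Ω := L) w 𝔓)
    (hL2 : ∀ a : 𝓞 F, a ∈ w.asIdeal ↔ algebraMap (𝓞 F) (𝓞 L) a ∈ 𝔓.asIdeal)
    (h2 : (2 : 𝓞 F) ∉ w.asIdeal) {q D' : ℕ} (hq : q.Prime) (hqw : (q : 𝓞 F) ∈ w.asIdeal)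
    (hD' : (D' : 𝓞 F) ∉ w.asIdeal)
    {γ : M} {m : ℤ[X]} {δ : ℤ} (hGF : Gen F γ m δ) (hGL : Gen L (algebraMap M Ω γ) m δ)
    (hδ : ¬ Pool.Agent.N922.PQ.Ov δ 𝔓) (hsp : SplitMod (q : ℤ) m)
    (hrm : r₀.Monic) (hrd : r₀.natDegree = 2 * g) (hri : Irreducible (rd w.asIdeal r₀))
    (hcg : Cg w.asIdeal f (X * r₀)) (hθ : 𝔓.valuation L θ = 1)
    (hvq : 𝔓.valuation L (q : L) = WithZero.exp (-1 : ℤ)) (s1 : Sq1 𝔓 (-1 : L))
    (s2 : Sq1 𝔓 ((D' : ℕ) : L)) (h : F[X]) (hne : aeval (((q * D' : ℕ) : L) * θ) h ≠ 0)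
    (hC : CC M ((fF (f.scaleRoots (((q * D' : ℕ) : ℕ) : 𝓞 F))).map (algebraMap F M))
      (((q * D' : ℕ) : Ω) * algebraMap L Ω θ)
      (algebraMap L Ω (aeval (((q * D' : ℕ) : L) * θ) h))) :
    U0 𝔓 ((q : L) * θ) (aeval (((q * D' : ℕ) : L) * θ) h) := by
  obtain ⟨𝔓', hv⟩ := (Pool.Agent.N362.PQ.ur L Ω (𝓞 L) (𝓞 Ω) _ m δ hGL).2 𝔓 hδ
  obtain ⟨w', hw', hO⟩ := Pool.Agent.N415.PQ.lie M Ω (𝓞 M) (𝓞 Ω) 𝔓'
  have hδ' : ¬ Pool.Agent.N922.PQ.Ov δ 𝔓' := fun h => hδ ((ov_down hv δ).1 h)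
  have hδw : ¬ Pool.Agent.N922.PQ.Ov δ w' := fun h => hδ' ((hO δ).1 h)
  have hq𝔓 : Pool.Agent.N922.PQ.Ov (q : ℤ) 𝔓 := by
    have := (hL2 _).1 hqw
    rw [map_natCast] at this
    unfold Pool.Agent.N922.PQ.Ov
    exact_mod_cast this
  have hq𝔓' : Pool.Agent.N922.PQ.Ov (q : ℤ) 𝔓' := (ov_down hv _).2 hq𝔓
  have hqw' : Pool.Agent.N922.PQ.Ov (q : ℤ) w' := (hO _).2 hq𝔓'
  have hqZ : Prime (q : ℤ) := Nat.prime_iff_prime_int.1 hq
  have hd : ∀ s : Ω, s ≠ 0 → ∃ s₀ : L, 𝔓'.valuation Ω (s - algebraMap L Ω s₀) < 𝔓'.valuation Ω s :=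
    Pool.Agent.N296.PQ.spd L Ω (𝓞 Ω) _ m δ hGL (q : ℤ) hqZ hsp 𝔓' hq𝔓' hδ'
  have hdM : ∀ s : M, s ≠ 0 → ∃ s₀ : F, w'.valuation M (s - algebraMap F M s₀) < w'.valuation M s :=
    Pool.Agent.N296.PQ.spd F M (𝓞 M) _ m δ hGF (q : ℤ) hqZ hsp w' hqw' hδw
  obtain ⟨w₀, hw₀⟩ := (Pool.Agent.N362.PQ.ur F M (𝓞 F) (𝓞 M) _ m δ hGF).1 w' hδw
  obtain rfl : w₀ = w := same_val hL2 hv hw' hw₀
  haveI : Finite (𝓞 M ⧸ w'.asIdeal) := Ideal.finiteQuotientOfFreeOfNeBot _ w'.ne_bot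
  haveI : Finite (𝓞 Ω ⧸ 𝔓'.asIdeal) := Ideal.finiteQuotientOfFreeOfNeBot _ 𝔓'.ne_bot
  have et : (((q * D' : ℕ) : Ω)) * algebraMap L Ω θ = algebraMap L Ω (((q * D' : ℕ) : L) * θ) := by
    rw [map_mul, map_natCast]
  have eH : aeval ((((q * D' : ℕ) : Ω)) * algebraMap L Ω θ) (h.map (algebraMap F M)) =
      algebraMap L Ω (aeval (((q * D' : ℕ) : L) * θ) h) := by
    rw [et, aeval_up]
  have hloc := (hC _ eH).1 w'
  rw [fD_eq hG.mon, Nat.cast_mul] at hloc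
  have hmF : (fF f).Monic := hG.mon.map _
  have e2 : (2 : M) = ((2 : ℕ) : M) := by norm_num
  have e5 : algebraMap M Ω ((q : M) * (D' : M)) * algebraMap L Ω θ =
      (((q * D' : ℕ) : Ω)) * algebraMap L Ω θ := by
    rw [map_mul, map_natCast, map_natCast, Nat.cast_mul]
  have h5 := LOC2 M Ω (𝓞 M) (𝓞 Ω) w' 𝔓' hw'
    (by rw [e2]; exact nat_unit hL hv hw' 2 (by exact_mod_cast h2)) g
    ((fF f).map (algebraMap F M)) (h.map (algebraMap F M)) (r₀.map (algebraMap (𝓞 F) (𝓞 M)))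
    (q : M) (D' : M) (algebraMap L Ω θ) hg (hmF.map _)
    (by rw [hmF.natDegree_map, hG.mon.natDegree_map, hG.deg])
    (hrm.map _) (by rw [hrm.natDegree_map, hrd]) (irr_up hw₀ hdM hri)
    (fun j => by
      have e : ((fF f).map (algebraMap F M)).coeff j -
          algebraMap (𝓞 M) M ((X * r₀.map (algebraMap (𝓞 F) (𝓞 M))).coeff j) =
          algebraMap F M (algebraMap (𝓞 F) F (f.coeff j - (X * r₀).coeff j)) := by
        have e0 : (X * r₀.map (algebraMap (𝓞 F) (𝓞 M)) : (𝓞 M)[X]) =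
            (X * r₀).map (algebraMap (𝓞 F) (𝓞 M)) := by
          rw [Polynomial.map_mul, map_X]
        rw [e0, coeff_map, coeff_map, coeff_map, map_sub, map_sub,
          ← IsScalarTower.algebraMap_apply (𝓞 F) (𝓞 M) M, ← IsScalarTower.algebraMap_apply (𝓞 F) F M,
          ← IsScalarTower.algebraMap_apply (𝓞 F) F M]
      rw [e, hw₀]
      exact (HeightOneSpectrum.valuation_lt_one_iff_mem (K := F) w₀ _).2 (hcg j))
    (by rw [aeval_up, hG.root, map_zero])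
    (by rw [hv]; exact hθ)
    (by rw [map_natCast, ← map_natCast (algebraMap L Ω), hv]; exact hvq)
    (nat_unit hL hv hw' D' hD')
    (by
      have := sq_up hv s1
      simpa using this)
    (by
      have := sq_up hv s2
      simpa using this)
    hloc
  rw [e5, eH] at h5
  have h6 := h5 (by rw [Ne, map_eq_zero]; exact hne)
  have e7 : algebraMap M Ω (q : M) * algebraMap L Ω θ = algebraMap L Ω ((q : L) * θ) := by
    rw [map_mul, map_natCast, map_natCast]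
  rw [e7] at h6
  exact u0_down hv hd h6

end

end Pool.Agent.L0h51.TM
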