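import Pool.Agent.N710.PF.Exs
import Pool.Agent.N40.PQ.Spl

/-!
# The set `S`: primes modulo which a given polynomial splits

After `N40/PQ/Spl.lean` (helper40) and `N710/PF/Exs.lean` (helper710).
-/

set_option autoImplicit false
set_option linter.all false

open Polynomial NumberField
open scoped Classical IntermediateField

namespace Pool.Agent.L0h51.TM

open Pool.Agent.N922.PQ (IsPr SplitMod)
open Pool.Agent.N40.PQ
open Pool.Agent.N783.PF (Cg rd GoodS sp)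

/-- Infinitely many primes, `1` modulo `8`, modulo which `g` splits. -/
theorem inf_split (g : ℤ[X]) (hgm : g.Monic) :
    {q : ℕ | q.Prime ∧ q % 8 = 1 ∧ SplitMod (q : ℤ) g}.Infinite := by
  classical
  set f : ℤ[X] := g * (X ^ 4 + 1) with hf
  have h41 : (X ^ 4 + 1 : ℤ[X]).Monic := by monicity!
  have hfm : f.Monic := hgm.mul h41
  have hNN : NumberField (f.map (algebraMap ℤ ℚ)).SplittingField :=
    { to_charZero := charZero_of_injective_algebraMap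
        (algebraMap ℚ (f.map (algebraMap ℤ ℚ)).SplittingField).injective
      to_finiteDimensional := inferInstance }
  have hfs : (f.map (algebraMap ℤ (f.map (algebraMap ℤ ℚ)).SplittingField)).Splits := by
    have h1 := SplittingField.splits (f.map (algebraMap ℤ ℚ))
    rw [Polynomial.map_map] at h1
    convert h1 using 2
    exact RingHom.ext_int _ _
  obtain ⟨η, G, δ', hGG, hdG⟩ := gen (f.map (algebraMap ℤ ℚ)).SplittingField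
  obtain ⟨Δ, hΔ0, hΔ⟩ := claim1 η G δ' hGG hdG f hfm hfs
  have hg0 : G.natDegree ≠ 0 := by
    rw [hdG]; exact Module.finrank_pos.ne'
  have hgood : ∀ q : ℕ, q.Prime → ¬ (q : ℤ) ∣ 2 * Δ → ∀ c : ℤ, (q : ℤ) ∣ G.eval c →
      SplitMod (q : ℤ) g ∧ q % 8 = 1 := by
    intro q hq hqΔ c hc
    have : Fact q.Prime := ⟨hq⟩
    have h1 := hΔ q hq (fun h => hqΔ (h.mul_left _)) c hc
    rw [hf, Polynomial.map_mul] at h1
    have hne1 : g.map (Int.castRingHom (ZMod q)) ≠ 0 := (hgm.map _).ne_zero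
    have hne2 : (X ^ 4 + 1 : ℤ[X]).map (Int.castRingHom (ZMod q)) ≠ 0 := (h41.map _).ne_zero
    rw [splits_mul_iff hne1 hne2] at h1
    refine ⟨splitMod_of_splits q hq g hgm h1.1, mod8 hq ?_ h1.2⟩
    rintro rfl
    exact hqΔ (dvd_mul_right _ _)
  intro hfin
  set P₀ : ℤ := 2 * Δ * ∏ Q ∈ hfin.toFinset, (Q : ℤ) with hPi
  have hPi0 : P₀ ≠ 0 := by
    refine mul_ne_zero (mul_ne_zero two_ne_zero hΔ0) (Finset.prod_ne_zero_iff.2 fun Q hQ => ?_)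
    exact_mod_cast (hfin.mem_toFinset.1 hQ).1.ne_zero
  obtain ⟨q, c, h1, h3, h4⟩ := claim2 G hGG.monic hg0 P₀ hPi0
  obtain ⟨h5, h6⟩ := hgood q h1 (fun h => h3 (h.mul_right _)) c h4
  apply h3
  exact (Finset.dvd_prod_of_mem (fun Q : ℕ => (Q : ℤ)) (hfin.mem_toFinset.2 ⟨h1, h6, h5⟩)).mul_left _

theorem exists_split (g : ℤ[X]) (hg : g.Monic) (B r : ℕ) :
    ∃ S : Finset ℕ, S.card = r ∧ ∀ q ∈ S, q.Prime ∧ B < q ∧ q % 8 = 1 ∧ SplitMod (q : ℤ) g := by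
  obtain ⟨S, hS1, hS2⟩ := ((inf_split g hg).sdiff (Set.finite_Iic B)).exists_subset_card_eq r
  refine ⟨S, hS2, fun q hq => ?_⟩
  have h := hS1 hq
  exact ⟨h.1.1, by simpa using h.2, h.1.2.1, h.1.2.2⟩

/-- Existence of `S`. -/
theorem exs1 (F : Type) [Field F] [NumberField F] (m : ℤ[X]) (hm : m.Monic) (W r : ℕ) :
    ∃ (S : Finset ℕ) (𝔮 : ℕ → Ideal (𝓞 F)) (h P : ℕ → (𝓞 F)[X]),
      GoodS 1 W S 𝔮 h P ∧ S.card = r ∧ ∀ q ∈ S, SplitMod (q : ℤ) m := by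
  obtain ⟨S, hS, hS2⟩ := exists_split m hm (W + (2 * 1 + 1) + (discr F).natAbs) r
  have hdata : ∀ q : ℕ, ∃ (𝔮 : Ideal (𝓞 F)) (h A : (𝓞 F)[X]), q ∈ S →
    (∀ 𝔭 : Ideal (𝓞 F), 𝔭.IsPrime → (q : 𝓞 F) ∉ 𝔭 ^ 2) ∧
    𝔮.IsPrime ∧ (q : 𝓞 F) ∈ 𝔮 ∧
    h.Monic ∧ h.natDegree = 2 * 1 ∧ Irreducible (rd 𝔮 h) ∧
    A.Monic ∧ A.natDegree = 2 * 1 + 1 ∧ A.coeff (2 * 1) = 0 ∧
    Cg 𝔮 A (X * h) ∧
    ∀ 𝔭 : Ideal (𝓞 F), 𝔭.IsPrime → (q : 𝓞 F) ∈ 𝔭 → 𝔭 ≠ 𝔮 → Irreducible (rd 𝔭 A) := by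
    intro q
    by_cases hq : q ∈ S
    · obtain ⟨h1, h2, h3, -⟩ := hS2 q hq
      obtain ⟨𝔮, h, A, hh⟩ := Pool.Agent.N710.PF.exists_data F 1 q le_rfl h1 (by omega) (by omega)
      exact ⟨𝔮, h, A, fun _ => hh⟩
    · exact ⟨⊥, 0, 0, fun h => absurd h hq⟩
  choose 𝔮 h A hh using hdata
  refine ⟨S, 𝔮, h, A, fun q hq => ?_, hS, fun q hq => (hS2 q hq).2.2.2⟩
  obtain ⟨h1, h2, h3, -⟩ := hS2 q hq
  exact ⟨h1, by omega, by omega, h3, hh q hq⟩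

end Pool.Agent.L0h51.TM
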