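import Pool.Agent.N352.PF.Cnt
import Pool.Agent.N738.PJ.Exs

/-!
# The conditions at the small prime ideals, `f₁` irreducible modulo all of them (degree three)

After `N823/PF/Gf.lean` of helper823 (project PF).
-/

set_option autoImplicit false
set_option linter.all false

open Polynomial NumberField IsDedekindDomain

namespace Pool.Agent.L0h51.TM

open Pool.Agent.N352.PF

/-- one finite field -/
theorem exists_F (k : Type) [Field k] [Finite k] : ∃ f : k[X], f.Monic ∧
    f.natDegree = 3 ∧ f.coeff 2 = 0 ∧ Irreducible f := by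
  by_cases h : ((3 : ℕ) : k) = 0
  · have hns : ¬ Function.Surjective (fun x : k => x ^ 3 - x) := by
      intro hs
      have hi := Finite.injective_iff_surjective.2 hs
      have h01 : (0 : k) = 1 := hi (by simp)
      exact zero_ne_one h01
    rw [Function.Surjective, not_forall] at hns
    obtain ⟨c, hc⟩ := hns
    have hd : (X ^ 3 - X - C c : k[X]).natDegree = 3 := by compute_degree!
    have hm : (X ^ 3 - X - C c : k[X]).Monic := by monicity!
    refine ⟨X ^ 3 - X - C c, hm, hd, ?_, ?_⟩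
    · simp [coeff_X, coeff_C, coeff_X_pow]
    · rw [Monic.irreducible_iff_roots_eq_zero_of_degree_le_three hm (by omega) (by omega)]
      rw [Multiset.eq_zero_iff_forall_notMem]
      intro t ht
      have ht' := (mem_roots hm.ne_zero).1 ht
      apply hc
      refine ⟨t, ?_⟩
      rw [IsRoot.def] at ht'
      simp only [eval_sub, eval_pow, eval_X, eval_C] at ht'
      exact sub_eq_zero.1 ht'
  · obtain ⟨r, h1, h2, h3, h4⟩ := Pool.Agent.N738.PJ.exists_irr0 k 3 (by omega) h
    exact ⟨r, h1, h3, h4, h2⟩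

/-- one prime ideal -/
theorem exists_v (F : Type) [Field F] [NumberField F]
    (v : HeightOneSpectrum (𝓞 F)) : ∃ f : (𝓞 F ⧸ v.asIdeal)[X], f.Monic ∧
    f.natDegree = 3 ∧ f.coeff 2 = 0 ∧ Irreducible f := by
  have hmax : v.asIdeal.IsMaximal := v.isMaximal
  letI : Field (𝓞 F ⧸ v.asIdeal) := Ideal.Quotient.field v.asIdeal
  have hfin : Finite (𝓞 F ⧸ v.asIdeal) := Ideal.finiteQuotientOfFreeOfNeBot v.asIdeal v.ne_bot
  obtain ⟨f, h1, h2, h3, h4⟩ := exists_F (𝓞 F ⧸ v.asIdeal)
  exact ⟨f, h1, h2, h3, h4⟩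

/-- The conditions at the small primes can be satisfied with `f₁` irreducible modulo all of them. -/
theorem gfi (F : Type) [Field F] [NumberField F] (M : ℕ) :
  ∃ (W : ℕ) (f₁ : (𝓞 F)[X]), f₁.Monic ∧ f₁.natDegree = 2 * 1 + 1 ∧ f₁.coeff (2 * 1) = 0 ∧ 0 < W ∧
    2 ∣ W ∧ (∀ v : HeightOneSpectrum (𝓞 F), (W : 𝓞 F) ∈ v.asIdeal → Irreducible (rv v f₁)) ∧
    ∀ p : ℕ, p.Prime → p ≤ M → p ∣ W := by
  classical
  set W : ℕ := primorial (max M 2) with hW
  have hWp : ∀ p : ℕ, p.Prime → p ≤ max M 2 → p ∣ W := fun p hp h =>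
    (hp.dvd_primorial_iff).mpr h
  have hW0 : 0 < W := primorial_pos _
  choose f hf1 hf2 hf3 hf4 using exists_v F
  have hWne : Ideal.span {(W : 𝓞 F)} ≠ 0 := by
    rw [Ne, Ideal.zero_eq_bot, Ideal.span_singleton_eq_bot]
    exact_mod_cast hW0.ne'
  have hfinS := Ideal.finite_factors hWne
  set T : Finset (HeightOneSpectrum (𝓞 F)) := hfinS.toFinset with hT
  have hmem : ∀ v : HeightOneSpectrum (𝓞 F), (W : 𝓞 F) ∈ v.asIdeal → v ∈ T := by
    intro v hv
    rw [hT, Set.Finite.mem_toFinset, Set.mem_setOf_eq, Ideal.dvd_span_singleton]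
    exact hv
  have hcrt : ∀ j : ℕ, ∃ a : 𝓞 F, ∀ v ∈ T, Ideal.Quotient.mk v.asIdeal a = (f v).coeff j := by
    intro j
    have hx : ∀ v : HeightOneSpectrum (𝓞 F), ∃ x : 𝓞 F,
        Ideal.Quotient.mk v.asIdeal x = (f v).coeff j := fun v =>
      Ideal.Quotient.mk_surjective _
    choose x hx using hx
    obtain ⟨a, ha⟩ := IsDedekindDomain.exists_forall_sub_mem_ideal (s := T)
      (fun v => v.asIdeal) (fun _ => 1) (fun v _ => v.prime)
      (fun v _ w _ hvw h => hvw (HeightOneSpectrum.ext h)) (fun v => x v)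
    refine ⟨a, fun v hv => ?_⟩
    have h1 := ha v hv
    rw [pow_one] at h1
    rw [← hx v]
    exact (Ideal.Quotient.mk_eq_mk_iff_sub_mem _ _).2 h1
  choose a ha using hcrt
  set P : (𝓞 F)[X] := ∑ i ∈ Finset.range 2, C (a i) * X ^ i with hP
  have hPd : P.degree < ((2 : ℕ) : WithBot ℕ) := by
    rw [hP]
    refine lt_of_le_of_lt (degree_sum_le _ _) ?_
    rw [Finset.sup_lt_iff (WithBot.bot_lt_coe _)]
    intro i hi
    refine lt_of_le_of_lt (degree_C_mul_X_pow_le _ _) ?_
    exact_mod_cast Finset.mem_range.mp hi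
  have hPd2 : P.degree < ((3 : ℕ) : WithBot ℕ) :=
    hPd.trans (by exact_mod_cast (by omega : 2 < 3))
  have hnd : (X ^ 3 + P).natDegree = 3 := by
    rw [natDegree_add_eq_left_of_degree_lt (by rw [degree_X_pow]; exact hPd2), natDegree_X_pow]
  have hmap : ∀ v ∈ T, rv v (X ^ 3 + P) = f v := by
    intro v hv
    conv_rhs => rw [(hf1 v).as_sum, hf2 v]
    rw [rv, Polynomial.map_add, Polynomial.map_pow, map_X, hP, Polynomial.map_sum]
    congr 1
    rw [Finset.sum_range_succ _ 2, hf3 v, C_0, zero_mul, add_zero]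
    refine Finset.sum_congr rfl fun i _ => ?_
    rw [Polynomial.map_mul, map_C, Polynomial.map_pow, map_X, ha i v hv]
  have h2W : 2 ∣ W := hWp 2 Nat.prime_two (le_max_right _ _)
  refine ⟨W, X ^ 3 + P, monic_X_pow_add hPd2, hnd, ?_, hW0, h2W, ?_,
    fun p hp hpM => hWp p hp (hpM.trans (le_max_left _ _))⟩
  · show (X ^ 3 + P).coeff 2 = 0
    rw [coeff_add, coeff_X_pow, if_neg (by omega), coeff_eq_zero_of_degree_lt hPd, add_zero]
  · intro v hv
    rw [hmap v (hmem v hv)]
    exact hf4 v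

end Pool.Agent.L0h51.TM
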