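import Pool.Agent.L0h51.TM.Main
import Pool.Agent.N783.PF.Final

/-!
# The theorem for elliptic curves over `M`

The counting is that of `N61/PF/Fin1.lean` (helper61).
-/

set_option autoImplicit false
set_option linter.all false

open Polynomial IsDedekindDomain NumberField Module
open scoped Classical

namespace Pool.Agent.L0h51.TM

open Pool.Agent.N783.PF
open Pool.Agent.N874.PP (sW)
open Pool.Agent.TH115.GD (Pt)
open Pool.Agent.N874.QM (SelC ShaC SelM)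
open Pool.Agent.N61.PF

/-- Trivial 2-Selmer group over `M`, finitely many points. -/
structure GoodM {F : Type} (M : Type) [Field F] [NumberField F] [Field M] [NumberField M]
    [Algebra F M] (p : 𝓞 F × 𝓞 F) : Prop where
  sel : SelC (sW (algebraMap F M (p.1 : F)) (algebraMap F M (p.2 : F)))
  sha : ShaC (sW (algebraMap F M (p.1 : F)) (algebraMap F M (p.2 : F)))
  fin : Finite (Pt (sW (algebraMap F M (p.1 : F)) (algebraMap F M (p.2 : F))) M)
  odd : Odd (Nat.card (Pt (sW (algebraMap F M (p.1 : F)) (algebraMap F M (p.2 : F))) M))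

variable {F M : Type} [Field F] [NumberField F] [Field M] [NumberField M] [Algebra F M] {n : ℕ}

theorem goodM_of (hM : Ext F M n) {B : ℕ} {f : (𝓞 F)[X]} (h : Ht 1 B f)
    (hirr : Irreducible (fF f)) (hsel : SelM M ((fF f).map (algebraMap F M))) :
    GoodM M (f.coeff 1, f.coeff 0) := by
  have hirr' : Irreducible ((fF f).map (algebraMap F M)) :=
    irr_M hM.rank hirr (h.mon.map _) (by rw [fF, h.mon.natDegree_map, h.deg]; exact ⟨1, rfl⟩)
  have e : (fF f).map (algebraMap F M) = X ^ 3 + C (algebraMap F M ((f.coeff 1 : 𝓞 F) : F)) * X +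
      C (algebraMap F M ((f.coeff 0 : 𝓞 F) : F)) := by
    rw [fF_eq h]
    simp
  rw [e] at hirr' hsel
  have hd := disc_ne hirr'
  have hs := selc M _ _ hd hirr' hsel
  obtain ⟨hdiv, hsha⟩ := Pool.Agent.N713.QM.gfc M _ _ hd hs
  obtain ⟨hf, ho⟩ := Pool.Agent.N459.QM.finc M _ _ hd hdiv
  exact ⟨hs, hsha, hf, ho⟩

theorem finM (hM : Ext F M n) : ∃ c : ℝ, 0 < c ∧ ∃ Y₀ : ℝ, ∀ Y : ℝ, Y₀ ≤ Y →
    0 < {p : 𝓞 F × 𝓞 F | Crv Y p}.ncard ∧
    c * ({p : 𝓞 F × 𝓞 F | Crv Y p}.ncard : ℝ) ≤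
      ({p : 𝓞 F × 𝓞 F | Crv Y p ∧ GoodM M p}.ncard : ℝ) := by
  have h0 : S_PTS := Pool.Agent.N490.PF.pts
  obtain ⟨-, C, hC, hlow, hup⟩ := h0 F
  obtain ⟨c, hc, B₀, hmain⟩ := mainM hM
  set d := Module.finrank ℚ F with hd
  set B₁ : ℕ := max B₀ 1 with hB₁
  refine ⟨c / (C ^ 2 * (C ^ 2 * 2 ^ (6 * d + 2))), by positivity, 27 * (B₁ : ℝ) ^ 6, ?_⟩
  intro Y hY
  have hfin := crv_finite (F := F) h0 Y
  have hB₁1 : 1 ≤ B₁ := le_max_right _ _
  have hB₁r : (1 : ℝ) ≤ B₁ := by exact_mod_cast hB₁1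
  have hY27 : 27 ≤ Y := by
    have : (1 : ℝ) ≤ (B₁ : ℝ) ^ 6 := one_le_pow₀ hB₁r
    linarith
  obtain ⟨B, hBB, hBY, hYB⟩ := exists_B B₁ Y hB₁1 hY
  have hB1 : 1 ≤ B := hB₁1.trans hBB
  obtain ⟨hfinH, hprop⟩ := hmain B ((le_max_left _ _).trans hBB)
  constructor
  · rw [Set.ncard_pos hfin]
    refine ⟨(1, 1), ⟨?_, ?_, ?_⟩⟩
    · norm_num
    · intro 𝔭 hp _ hcon
      apply hp.ne_top
      rw [Ideal.eq_top_iff_one]
      exact Ideal.pow_le_self (by norm_num) hcon.1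
    · intro σ
      constructor
      · simp; linarith
      · simp; linarith
  · have hu := crv_upper hC hup hB1 hYB
    have hl := ht_lower hC hlow hB1 hfinH
    rw [← hd] at hu hl
    -- the good polynomials give good curves
    have h5 : ({f : (𝓞 F)[X] | Ht 1 B f ∧ Irreducible (fF f) ∧
          SelM M ((fF f).map (algebraMap F M)) ∧ Min 1 f}.ncard : ℝ) ≤
        ({p : 𝓞 F × 𝓞 F | Crv Y p ∧ GoodM M p}.ncard : ℝ) := by
      have h6 := Set.ncard_le_ncard_of_injOn (fun f : (𝓞 F)[X] => (f.coeff 1, f.coeff 0))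
        (s := {f : (𝓞 F)[X] | Ht 1 B f ∧ Irreducible (fF f) ∧
          SelM M ((fF f).map (algebraMap F M)) ∧ Min 1 f})
        (t := {p : 𝓞 F × 𝓞 F | Crv Y p ∧ GoodM M p})
        (fun f hf => ⟨crv_of_ht hf.1 hf.2.1 hf.2.2.2 hBY, goodM_of hM hf.1 hf.2.1 hf.2.2.1⟩)
        (by
          intro f hf f' hf' h
          have e := Prod.mk.injEq .. ▸ h
          rw [eq_pol hf.1, eq_pol hf'.1, e.1, e.2])
        (hfin.subset fun p hp => hp.1)
      exact_mod_cast h6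
    have hBd : 0 < (B : ℝ) ^ (5 * d) := by
      have : (0 : ℝ) < B := by exact_mod_cast hB1
      positivity
    have h7 : ({p : 𝓞 F × 𝓞 F | Crv Y p}.ncard : ℝ) ≤
        (C ^ 2 * 2 ^ (6 * d + 2)) * (C ^ 2 * ({f : (𝓞 F)[X] | Ht 1 B f}.ncard : ℝ)) :=
      hu.trans (mul_le_mul_of_nonneg_left hl (by positivity))
    calc c / (C ^ 2 * (C ^ 2 * 2 ^ (6 * d + 2))) * ({p : 𝓞 F × 𝓞 F | Crv Y p}.ncard : ℝ)
        ≤ c / (C ^ 2 * (C ^ 2 * 2 ^ (6 * d + 2))) *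
          ((C ^ 2 * 2 ^ (6 * d + 2)) * (C ^ 2 * ({f : (𝓞 F)[X] | Ht 1 B f}.ncard : ℝ))) :=
          mul_le_mul_of_nonneg_left h7 (by positivity)
      _ = c * ({f : (𝓞 F)[X] | Ht 1 B f}.ncard : ℝ) := by
          field_simp
      _ ≤ _ := hprop.trans h5

end Pool.Agent.L0h51.TM
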