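import Pool.Agent.L0h51.TM.SelM
import Pool.Agent.L0h51.TM.Fam1
import Pool.Agent.L0h51.TM.Exs1
import Pool.Agent.N40.PQ.Gen

/-!
# A positive proportion with trivial 2-Selmer group over `M`

The counting is that of `N99/PF/Main.lean` (helper99).
-/

set_option autoImplicit false
set_option linter.all false

open Polynomial IsDedekindDomain NumberField WithZero Module
open scoped Classical IntermediateField

namespace Pool.Agent.L0h51.TM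

open Pool.Agent.N783.PF
open Pool.Agent.N352.PJ (dd)
open Pool.Agent.N922.PQ (Gen SplitMod)
open Pool.Agent.N99.PF (card_fib ht_card ht_scale scale_inj good_card)
open Pool.Agent.N170.PF (LBad.mono irr_scale fF_scale)
open Pool.Agent.N874.QM (SelM)

/-- The hypotheses on `M / F`. -/
structure Ext (F M : Type) [Field F] [NumberField F] [Field M] [NumberField M] [Algebra F M]
    (n : ℕ) : Prop where
  gal : IsGalois F M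
  rank : finrank F M = 2 ^ n
  two : ∀ w : HeightOneSpectrum (𝓞 F), (2 : 𝓞 F) ∈ w.asIdeal →
    Nonempty (M →ₐ[F] w.adicCompletion F)
  real : ∀ σ : F →+* ℝ, ∃ τ : M →+* ℝ, τ.comp (algebraMap F M) = σ

variable {F M : Type} [Field F] [NumberField F] [Field M] [NumberField M] [Algebra F M] {n : ℕ}

theorem twM (h : Ext F M n) {γ : M} {m : ℤ[X]} {δ : ℤ} (hγ : Gen ℚ γ m δ) : ∃ κ : ℕ,
    ∀ (B N W : ℕ) (f₁ : (𝓞 F)[X]) (S : Finset ℕ) (𝔮 : ℕ → Ideal (𝓞 F)) (r P : ℕ → (𝓞 F)[X])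
    (f : (𝓞 F)[X]), κ ≤ W → GoodF 1 W f₁ →
    (∀ 𝔭 : Ideal (𝓞 F), 𝔭.IsPrime → (W : 𝓞 F) ∈ 𝔭 → Irreducible (rd 𝔭 f₁)) →
    (∀ p : ℕ, p.Prime → (p : ℤ) ∣ δ → p ∣ W) → (∀ q ∈ S, SplitMod (q : ℤ) m) →
    GoodS 1 W S 𝔮 r P → Fam 1 B W f₁ S P f → 2 ^ κ * B ≤ 4 ^ N → 1 ≤ B →
    ¬ LBad 1 N κ S 𝔮 P f →
    ∃ J ⊆ S, Irreducible (fF (f.scaleRoots ((Dp J : ℕ) : 𝓞 F))) ∧
      SelM M ((fF (f.scaleRoots ((Dp J : ℕ) : 𝓞 F))).map (algebraMap F M)) ∧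
      Min 1 (f.scaleRoots ((Dp J : ℕ) : 𝓞 F)) := by
  haveI := h.gal
  obtain ⟨κ₁, hκ₁⟩ := core 1 F le_rfl
  obtain ⟨κ₂, hκ₂⟩ := sqf 1 F le_rfl
  refine ⟨max κ₁ κ₂, fun B N W f₁ S 𝔮 r P f hW hf₁ hi hdW hspl hS hF hBN hB hnb => ?_⟩
  have hBN1 : 2 ^ κ₁ * B ≤ 4 ^ N :=
    (Nat.mul_le_mul_right _ (Nat.pow_le_pow_right (by norm_num) (le_max_left _ _))).trans hBN
  have hBN2 : 2 ^ κ₂ * B ≤ 4 ^ N :=
    (Nat.mul_le_mul_right _ (Nat.pow_le_pow_right (by norm_num) (le_max_right _ _))).trans hBN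
  have hnb1 : ¬ LBad 1 N κ₁ S 𝔮 P f := fun h => hnb (LBad.mono (le_max_left _ _) h)
  have hnb2 : ¬ LBad 1 N κ₂ S 𝔮 P f := fun h => hnb (LBad.mono (le_max_right _ _) h)
  have hm := hF.ht.mon
  have hd := hF.ht.deg
  have hirr : Irreducible (fF f) := Pool.Agent.N667.PF.irr F 1 W f₁ f hf₁ hF.one hm hd
  have hsq : SqF 1 f := hκ₂ B N W f₁ S 𝔮 r P f ((le_max_right _ _).trans hW) hf₁ hS hF hirr hBN2
    hB hnb2
  obtain ⟨L, _, _, _, θ, hc⟩ := Pool.Agent.N667.PF.gen F 1 f hm hd hirr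
  obtain ⟨J, hJ, hcore⟩ := hκ₁ L f f₁ θ B N W S 𝔮 r P ((le_max_left _ _).trans hW) hc hsq hf₁ hS
    hF hBN1 hB hnb1
  have hD0 : Dp J ≠ 0 := by
    rw [Dp, Finset.prod_ne_zero_iff]
    exact fun q hq => (hS q (hJ hq)).1.ne_zero
  refine ⟨J, hJ, ?_, ?_, Pool.Agent.N547.PF.min 1 W F S J 𝔮 r P f le_rfl hS hsq hm hd hF.con hJ⟩
  · rw [fF_scale hm]
    exact irr_scale (Nat.cast_ne_zero.2 hD0) hirr
  · exact selM (S := S) h.rank h.two h.real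
      (⟨le_rfl, hc, hsq, hf₁, hS, hF.one, hF.con, hJ, hi, hdW, hspl⟩ :
        Dat 1 W f f₁ θ S J 𝔮 r P m δ) hγ hirr hcore

theorem mainM (h : Ext F M n) : ∃ c : ℝ, 0 < c ∧ ∃ B₀ : ℕ, ∀ B ≥ B₀,
    {f : (𝓞 F)[X] | Ht 1 B f}.Finite ∧ c * ({f : (𝓞 F)[X] | Ht 1 B f}.ncard : ℝ) ≤
    ({f : (𝓞 F)[X] | Ht 1 B f ∧ Irreducible (fF f) ∧ SelM M ((fF f).map (algebraMap F M)) ∧
      Min 1 f}.ncard : ℝ) := by
  obtain ⟨γ, mγ, δ, hγ, -⟩ := Pool.Agent.N40.PQ.gen M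
  obtain ⟨κ, htw⟩ := twM h hγ
  obtain ⟨C, K, hbad⟩ := bad F 1 κ le_rfl
  obtain ⟨W, f₁, hKW, hpW, hf₁, hi, c, hc, hfam⟩ := fam1 F (max (max K κ) δ.natAbs)
  have hdW : ∀ p : ℕ, p.Prime → (p : ℤ) ∣ δ → p ∣ W := by
    intro p hp hpd
    refine hpW p hp ((Nat.le_of_dvd (Int.natAbs_pos.2 hγ.ne) (Int.natCast_dvd.1 hpd)).trans
      (le_max_right _ _))
  obtain ⟨-, Cp, hCp, -, hpt⟩ := Pool.Agent.N490.PF.pts F
  set D : ℕ := Module.finrank ℚ F * dd 1 with hD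
  obtain ⟨m, hm⟩ : ∃ m : ℕ, 2 * (C * (4 * 2 ^ κ : ℝ) ^ D) / c < 2 ^ m :=
    pow_unbounded_of_one_lt _ (by norm_num)
  obtain ⟨S, 𝔮, r, P, hS, hcard, hspl⟩ := exs1 F mγ hγ.monic W m
  obtain ⟨B₁₀, hB₁₀⟩ := hfam S 𝔮 r P hS
  obtain ⟨N₀, hN₀⟩ := hbad W S 𝔮 r P (((le_max_left _ _).trans (le_max_left _ _)).trans hKW) hS
  set Q : ℕ := ∏ q ∈ S, q with hQ
  have hq1 : ∀ q ∈ S, 1 ≤ q := fun q hq => (hS q hq).1.pos
  have hQ1 : 1 ≤ Q := Finset.one_le_prod' hq1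
  set Pn : ℕ := (∏ q ∈ S, q ^ (2 * 1)) ^ Module.finrank ℚ F with hPn
  have hP0 : (0 : ℝ) < Pn := by
    have : 0 < Pn := pow_pos (Finset.prod_pos fun q hq => pow_pos (hq1 q hq) _) _
    exact_mod_cast this
  have hQ0 : (0 : ℝ) < Q := by exact_mod_cast hQ1
  set X₀ : ℕ := max (max B₁₀ (4 ^ N₀)) 1 with hX₀
  refine ⟨c / 2 / (Pn * 2 ^ m * ((2 * Cp) ^ (2 * 1) * (2 * Q) ^ D)), by positivity, X₀ * Q,
    fun B hB => ?_⟩
  set B₁ : ℕ := B / Q with hB₁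
  have hBX : X₀ ≤ B₁ := (Nat.le_div_iff_mul_le hQ1).2 hB
  have hb1 : 1 ≤ B₁ := (le_max_right _ _).trans hBX
  have hb2 : B₁₀ ≤ B₁ := ((le_max_left _ _).trans (le_max_left _ _)).trans hBX
  have hb3 : 4 ^ N₀ ≤ B₁ := ((le_max_right _ _).trans (le_max_left _ _)).trans hBX
  have hBQ : B₁ * Q ≤ B := Nat.div_mul_le_self B Q
  have hBQ2 : B ≤ 2 * Q * B₁ := by
    have e1 : B < B₁ * Q + Q := by
      have := Nat.lt_div_mul_add (a := B) (b := Q) hQ1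
      exact this
    nlinarith
  have hB1 : 1 ≤ B := le_trans (by nlinarith) hBQ
  obtain ⟨N, hNa, hNb⟩ : ∃ N : ℕ, 2 ^ κ * B₁ ≤ 4 ^ N ∧ 4 ^ N ≤ 4 * (2 ^ κ * B₁) := by
    refine ⟨Nat.log 4 (2 ^ κ * B₁) + 1, (Nat.lt_pow_succ_log_self (by norm_num) _).le, ?_⟩
    rw [pow_succ, mul_comm]
    refine Nat.mul_le_mul_left 4 (Nat.pow_log_le_self 4 ?_)
    positivity
  have hNN : N₀ ≤ N := by
    have e1 : 4 ^ N₀ ≤ 4 ^ N := hb3.trans (le_trans (Nat.le_mul_of_pos_left _ (by positivity)) hNa)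
    exact (Nat.pow_le_pow_iff_right (by norm_num)).1 e1
  obtain ⟨hfin, hBd⟩ := hN₀ N hNN
  refine ⟨(ht_card hCp hpt 1 B hB1).1, ?_⟩
  set H := {f : (𝓞 F)[X] | Ht 1 B f ∧ Irreducible (fF f) ∧
    SelM M ((fF f).map (algebraMap F M)) ∧ Min 1 f} with hH
  set G := {f : (𝓞 F)[X] | Fam 1 B₁ W f₁ S P f} \ {f : (𝓞 F)[X] | LBad 1 N κ S 𝔮 P f} with hGdef
  have hHf : H.Finite := (ht_card hCp hpt 1 B hB1).1.subset fun f hf => hf.1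
  have hGf : G.Finite := (ht_card hCp hpt 1 B₁ hb1).1.subset fun f hf => hf.1.ht
  have hG : c / 2 * (B₁ : ℝ) ^ D ≤ Pn * (G.ncard : ℝ) := by
    refine good_card (C := C) (m := m) (κ := κ) hc hP0 B₁ N (hB₁₀ B₁ hb2) hfin ?_ hm ?_
    · rw [hcard] at hBd
      have e2 : Module.finrank ℚ F * (2 * N * dd 1) = 2 * N * D := by rw [hD]; ring
      rw [e2] at hBd
      exact_mod_cast hBd
    · exact_mod_cast hNb
  have hJ0 : ∀ J ⊆ S, ((Dp J : ℕ) : 𝓞 F) ≠ 0 := by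
    intro J hJ
    have : 0 < ∏ q ∈ J, q := Finset.prod_pos fun q hq => hq1 q (hJ hq)
    have h5 : (Dp J : ℕ) ≠ 0 := this.ne'
    exact_mod_cast h5
  have hcard1 := card_fib hGf hHf S (fun J f => f.scaleRoots ((Dp J : ℕ) : 𝓞 F)) (by
      intro f hf
      obtain ⟨J, hJ, hirr, hsel⟩ := htw B₁ N W f₁ S 𝔮 r P f
        (((le_max_right _ _).trans (le_max_left _ _)).trans hKW) hf₁ hi hdW hspl hS
        hf.1 hNa hb1 hf.2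
      have hDle : Dp J ≤ Q :=
        Finset.prod_le_prod_of_subset_of_one_le' hJ fun q hq _ => hq1 q hq
      exact ⟨J, hJ, ht_scale hf.1.ht ((Nat.mul_le_mul_left _ hDle).trans hBQ), hirr, hsel⟩) (by
      intro J hJ x hx y hy hxy
      exact scale_inj (hJ0 J hJ) (by rw [hx.1.ht.deg, hy.1.ht.deg]) hxy)
  rw [hcard] at hcard1
  have hcard' : (G.ncard : ℝ) ≤ 2 ^ m * H.ncard := by exact_mod_cast hcard1
  have hM' : ({f : (𝓞 F)[X] | Ht 1 B f}.ncard : ℝ) ≤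
      (2 * Cp) ^ (2 * 1) * (2 * Q) ^ D * (B₁ : ℝ) ^ D := by
    have e1 : ({f : (𝓞 F)[X] | Ht 1 B f}.ncard : ℝ) ≤ (2 * Cp) ^ (2 * 1) * (B : ℝ) ^ D :=
      (ht_card hCp hpt 1 B hB1).2
    refine e1.trans ?_
    rw [mul_assoc, ← mul_pow]
    have e2 : (B : ℝ) ≤ 2 * Q * B₁ := by exact_mod_cast hBQ2
    gcongr
  calc c / 2 / (Pn * 2 ^ m * ((2 * Cp) ^ (2 * 1) * (2 * Q) ^ D)) *
        ({f : (𝓞 F)[X] | Ht 1 B f}.ncard : ℝ)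
      ≤ c / 2 / (Pn * 2 ^ m * ((2 * Cp) ^ (2 * 1) * (2 * Q) ^ D)) *
        ((2 * Cp) ^ (2 * 1) * (2 * Q) ^ D * (B₁ : ℝ) ^ D) :=
        mul_le_mul_of_nonneg_left hM' (by positivity)
    _ = c / 2 * (B₁ : ℝ) ^ D / (Pn * 2 ^ m) := by
        field_simp
    _ ≤ (Pn * (G.ncard : ℝ)) / (Pn * 2 ^ m) := by gcongr
    _ ≤ (Pn * (2 ^ m * H.ncard)) / (Pn * 2 ^ m) := by gcongr
    _ = H.ncard := by field_simp

end Pool.Agent.L0h51.TM
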