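import Pool.Agent.L0h51.TM.Alg
import Pool.Agent.N922.PQ.Big

/-!
# Residue fields and units in extensions
-/

set_option autoImplicit false
set_option linter.all false

open Polynomial IsDedekindDomain NumberField WithZero
open scoped Classical

namespace Pool.Agent.L0h51.TM

open Pool.Agent.N874.PP (Ev Sq1 U0)
open Pool.Agent.N874.PM (Lies)
open Pool.Agent.N922.PQ (ev_down sq_down)

section res

variable {F M : Type} [Field F] [NumberField F] [Field M] [NumberField M] [Algebra F M]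
  {w : HeightOneSpectrum (𝓞 F)} {w' : HeightOneSpectrum (𝓞 M)}

theorem int_approx (w : HeightOneSpectrum (𝓞 F)) {z : F} (hz : w.valuation F z ≤ 1) :
    ∃ z₁ : 𝓞 F, w.valuation F (z - algebraMap (𝓞 F) F z₁) < 1 := by
  obtain ⟨n, d, hnd⟩ := w.exists_primeCompl_mul_eq_of_integer z hz
  haveI := w.isMaximal
  obtain ⟨e, he⟩ := Ideal.Quotient.exists_inv (I := w.asIdeal)
    (a := (Ideal.Quotient.mk w.asIdeal (d : 𝓞 F)))
    (by rw [Ne, Ideal.Quotient.eq_zero_iff_mem]; exact d.2)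
  obtain ⟨e, rfl⟩ := Ideal.Quotient.mk_surjective e
  rw [← map_mul, ← map_one (Ideal.Quotient.mk w.asIdeal), Ideal.Quotient.eq] at he
  refine ⟨n * e, ?_⟩
  have e1 : z - algebraMap (𝓞 F) F (n * e) = -(z * algebraMap (𝓞 F) F ((d : 𝓞 F) * e - 1)) := by
    rw [map_mul, ← hnd, map_sub, map_mul, map_one]
    ring
  rw [e1, Valuation.map_neg, map_mul]
  refine lt_of_le_of_lt (mul_le_mul' hz le_rfl) ?_
  rw [one_mul, HeightOneSpectrum.valuation_lt_one_iff_mem]
  exact he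

theorem surj_res (hv : ∀ x : F, w'.valuation M (algebraMap F M x) = w.valuation F x)
    (hd : ∀ s : M, s ≠ 0 → ∃ s₀ : F, w'.valuation M (s - algebraMap F M s₀) < w'.valuation M s)
    (z : 𝓞 M) : ∃ z₀ : 𝓞 F, z - algebraMap (𝓞 F) (𝓞 M) z₀ ∈ w'.asIdeal := by
  by_cases h0 : (z : M) = 0
  · refine ⟨0, ?_⟩
    have : z = 0 := by exact_mod_cast h0
    rw [this, map_zero, sub_zero]
    exact Ideal.zero_mem _
  · obtain ⟨s₀, hs₀⟩ := hd (z : M) h0
    have hz : w'.valuation M (z : M) ≤ 1 := w'.valuation_le_one z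
    have hs1 : w.valuation F s₀ ≤ 1 := by
      rw [← hv]
      have e : algebraMap F M s₀ = (z : M) - ((z : M) - algebraMap F M s₀) := by ring
      rw [e]
      exact (Valuation.map_sub _ _ _).trans (max_le hz (hs₀.le.trans hz))
    obtain ⟨z₁, hz₁⟩ := int_approx w hs1
    refine ⟨z₁, ?_⟩
    rw [← HeightOneSpectrum.valuation_lt_one_iff_mem (K := M)]
    change w'.valuation M (algebraMap (𝓞 M) M (z - algebraMap (𝓞 F) (𝓞 M) z₁)) < 1
    have e : algebraMap (𝓞 M) M (z - algebraMap (𝓞 F) (𝓞 M) z₁) =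
        ((z : M) - algebraMap F M s₀) + algebraMap F M (s₀ - algebraMap (𝓞 F) F z₁) := by
      rw [map_sub, map_sub, ← IsScalarTower.algebraMap_apply (𝓞 F) (𝓞 M) M,
        ← IsScalarTower.algebraMap_apply (𝓞 F) F M]
      ring
    rw [e]
    refine lt_of_le_of_lt (Valuation.map_add _ _ _) (max_lt (lt_of_lt_of_le hs₀ hz) ?_)
    rw [hv]
    exact hz₁

theorem irr_up (hv : ∀ x : F, w'.valuation M (algebraMap F M x) = w.valuation F x)
    (hd : ∀ s : M, s ≠ 0 → ∃ s₀ : F, w'.valuation M (s - algebraMap F M s₀) < w'.valuation M s)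
    {r : (𝓞 F)[X]} (hr : Irreducible (r.map (Ideal.Quotient.mk w.asIdeal))) :
    Irreducible ((r.map (algebraMap (𝓞 F) (𝓞 M))).map (Ideal.Quotient.mk w'.asIdeal)) := by
  have hle : w.asIdeal ≤ w'.asIdeal.comap (algebraMap (𝓞 F) (𝓞 M)) := by
    intro a ha
    rw [Ideal.mem_comap, ← HeightOneSpectrum.valuation_lt_one_iff_mem (K := M)]
    change w'.valuation M (algebraMap (𝓞 M) M (algebraMap (𝓞 F) (𝓞 M) a)) < 1
    rw [← IsScalarTower.algebraMap_apply (𝓞 F) (𝓞 M) M, IsScalarTower.algebraMap_apply (𝓞 F) F M, hv,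
      show w.valuation F (algebraMap (𝓞 F) F a) < 1 ↔ a ∈ w.asIdeal from
        HeightOneSpectrum.valuation_lt_one_iff_mem (K := F) w a]
    exact ha
  set ψ : 𝓞 F ⧸ w.asIdeal →+* 𝓞 M ⧸ w'.asIdeal :=
    Ideal.quotientMap w'.asIdeal (algebraMap (𝓞 F) (𝓞 M)) hle with hψ
  have hc : ψ.comp (Ideal.Quotient.mk w.asIdeal) =
      (Ideal.Quotient.mk w'.asIdeal).comp (algebraMap (𝓞 F) (𝓞 M)) :=
    Ideal.quotientMap_comp_mk hle
  haveI := w.isMaximal
  haveI := w'.isMaximal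
  have hbij : Function.Bijective ψ := by
    constructor
    · letI : Field (𝓞 F ⧸ w.asIdeal) := Ideal.Quotient.field w.asIdeal
      haveI : Nontrivial (𝓞 M ⧸ w'.asIdeal) := Ideal.Quotient.nontrivial_iff.2 w'.isPrime.ne_top
      exact ψ.injective
    · intro y
      obtain ⟨z, rfl⟩ := Ideal.Quotient.mk_surjective y
      obtain ⟨z₀, hz₀⟩ := surj_res hv hd z
      refine ⟨Ideal.Quotient.mk _ z₀, ?_⟩
      have h1 := RingHom.congr_fun hc z₀
      simp only [RingHom.comp_apply] at h1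
      rw [h1]
      exact ((Ideal.Quotient.mk_eq_mk_iff_sub_mem _ _).2 hz₀).symm
  set e : 𝓞 F ⧸ w.asIdeal ≃+* 𝓞 M ⧸ w'.asIdeal := RingEquiv.ofBijective ψ hbij with he
  have h1 : (r.map (algebraMap (𝓞 F) (𝓞 M))).map (Ideal.Quotient.mk w'.asIdeal) =
      Polynomial.mapEquiv e (r.map (Ideal.Quotient.mk w.asIdeal)) := by
    rw [Polynomial.map_map, ← hc, ← Polynomial.map_map]
    rfl
  rw [h1]
  exact (MulEquiv.irreducible_iff (Polynomial.mapEquiv e)).2 hr

end res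

section unit

variable {M Ω R O : Type} [Field M] [Field Ω] [Algebra M Ω] [CommRing R]
  [IsDedekindDomain R] [Algebra R M] [IsFractionRing R M] [CommRing O] [IsDedekindDomain O]
  [Algebra O Ω] [IsFractionRing O Ω] {w : HeightOneSpectrum R} {𝔓 : HeightOneSpectrum O}

theorem unit_up (hl : Lies (M := M) (Ω := Ω) w 𝔓) {a : M} (ha : w.valuation M a = 1) :
    𝔓.valuation Ω (algebraMap M Ω a) = 1 := by
  have h1 := hl.le a ha.le
  have h2 := hl.le a⁻¹ (by rw [map_inv₀, ha, inv_one])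
  refine le_antisymm h1 ?_
  rw [map_inv₀, map_inv₀] at h2
  have ha0 : a ≠ 0 := by
    rintro rfl
    rw [map_zero] at ha
    exact zero_ne_one ha
  have h0 : 𝔓.valuation Ω (algebraMap M Ω a) ≠ 0 := by
    rw [Valuation.ne_zero_iff, Ne, map_eq_zero]
    exact ha0
  exact (inv_le_one₀ (zero_lt_iff.2 h0)).1 h2

theorem unit_down (hl : Lies (M := M) (Ω := Ω) w 𝔓) {a : M} (h1 : w.valuation M a ≤ 1)
    (ha : 𝔓.valuation Ω (algebraMap M Ω a) = 1) : w.valuation M a = 1 := by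
  refine le_antisymm h1 (not_lt.1 fun h => ?_)
  have := hl.lt a h
  rw [ha] at this
  exact lt_irrefl _ this

end unit

section up

variable {L Ω O O' : Type} [Field L] [Field Ω] [Algebra L Ω]
  [CommRing O] [IsDedekindDomain O] [Algebra O L] [IsFractionRing O L]
  [CommRing O'] [IsDedekindDomain O'] [Algebra O' Ω] [IsFractionRing O' Ω]
  {𝔓 : HeightOneSpectrum O} {𝔓' : HeightOneSpectrum O'}

theorem sq_up (hv : ∀ x : L, 𝔓'.valuation Ω (algebraMap L Ω x) = 𝔓.valuation L x) {x : L}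
    (h : Sq1 𝔓 x) : Sq1 𝔓' (algebraMap L Ω x) := by
  obtain ⟨s, hs⟩ := h
  refine ⟨algebraMap L Ω s, ?_⟩
  rw [← map_pow, ← map_sub, hv, hv]
  exact hs

theorem u0_down (hv : ∀ x : L, 𝔓'.valuation Ω (algebraMap L Ω x) = 𝔓.valuation L x)
    (hd : ∀ s : Ω, s ≠ 0 → ∃ s₀ : L, 𝔓'.valuation Ω (s - algebraMap L Ω s₀) < 𝔓'.valuation Ω s)
    {ϖ x : L} (h : U0 𝔓' (algebraMap L Ω ϖ) (algebraMap L Ω x)) : U0 𝔓 ϖ x := by
  refine ⟨fun h4 => sq_down hv hd (h.1 ((ev_down hv x).2 h4)), fun h4 => ?_⟩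
  have h5 := h.2 fun h6 => h4 ((ev_down hv x).1 h6)
  rw [← map_mul] at h5
  exact sq_down hv hd h5

end up

end Pool.Agent.L0h51.TM
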