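import Pool.Agent.L0h51.TM.Tow
import Pool.Agent.N301.JM.TOW

/-!
# Descent along `M / F`
-/

set_option autoImplicit false
set_option linter.all false

open Polynomial IsDedekindDomain NumberField WithZero
open scoped Classical

namespace Pool.Agent.L0h51.TM

open Pool.Agent.N874.PP (Ev Sq1 U0)
open Pool.Agent.N783.PQ (LocIm)
open Pool.Agent.N874.JM (LocF)
open Pool.Agent.N874.PM (Lies)
open Pool.Agent.N783.PF
open Pool.Agent.N922.PQ (ev_down sq_down Gen SplitMod ov_val ov_down)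

section

variable {F L M Ω : Type} [Field F] [NumberField F] [Field L] [NumberField L] [Field M]
  [NumberField M] [Field Ω] [NumberField Ω] [Algebra F L] [Algebra F M] [Algebra L Ω]
  [Algebra M Ω] [Algebra F Ω] [IsScalarTower F L Ω] [IsScalarTower F M Ω]

/-- The property of the twist of `S_CORE`. -/
def Core (f : (𝓞 F)[X]) (θ : L) (J : Finset ℕ) (𝔮 : ℕ → Ideal (𝓞 F)) : Prop :=
  ∀ h : F[X], aeval θ h ≠ 0 → IsSquare (Algebra.norm F (aeval θ h)) →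
    (∀ 𝔓 : HeightOneSpectrum (𝓞 L), (∀ q ∈ J, Ov (𝔮 q) 𝔓 → 𝔓.valuation L θ ≠ 1) →
      Ev 𝔓 (aeval θ h)) →
    (∀ q ∈ J, ∀ 𝔓 : HeightOneSpectrum (𝓞 L), Ov (𝔮 q) 𝔓 → 𝔓.valuation L θ = 1 →
      U0 𝔓 ((q : L) * θ) (aeval θ h)) →
    (∀ w : HeightOneSpectrum (𝓞 F), (2 : 𝓞 F) ∈ w.asIdeal →
      LocF (w.adicCompletion F) (fF f) h) →
    (∀ σ : F →+* ℝ, LocIm ℝ ((fF f).map σ) (h.map σ)) → IsSquare (aeval θ h)

theorem ex_poly {g : ℕ} {f : (𝓞 F)[X]} {θ : L} (hG : IsGen g f θ) {D : ℕ} (hD : D ≠ 0) (x : L) :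
    ∃ h : F[X], aeval ((D : L) * θ) h = x := by
  obtain ⟨c, hc⟩ := hG.gen x
  have hDL : (D : L) ≠ 0 := Nat.cast_ne_zero.2 hD
  refine ⟨∑ i : Fin (2 * g + 1), C (c i * ((D : F)⁻¹) ^ (i : ℕ)) * X ^ (i : ℕ), ?_⟩
  rw [map_sum, hc]
  refine Finset.sum_congr rfl fun i _ => ?_
  rw [map_mul, aeval_C, map_pow, aeval_X, map_mul, map_pow, map_inv₀, map_natCast, mul_pow]
  have e : ((D : L)⁻¹) ^ (i : ℕ) * (D : L) ^ (i : ℕ) = 1 := by
    rw [← mul_pow, inv_mul_cancel₀ hDL, one_pow]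
  linear_combination (algebraMap F L (c i) * θ ^ (i : ℕ)) * e

theorem desc {g W : ℕ} {f f₁ : (𝓞 F)[X]} {θ : L} {S J : Finset ℕ} {𝔮 : ℕ → Ideal (𝓞 F)}
    {r P : ℕ → (𝓞 F)[X]} {m : ℤ[X]} {δ : ℤ} (H : Dat g W f f₁ θ S J 𝔮 r P m δ) {γ : M}
    (hGF : Gen F γ m δ) (hGL : Gen L (algebraMap M Ω γ) m δ) [IsGalois F M] {n : ℕ}
    (hM : Module.finrank F M = 2 ^ n) (hΩ : Module.finrank M Ω = Module.finrank F L)
    (h2 : ∀ w : HeightOneSpectrum (𝓞 F), (2 : 𝓞 F) ∈ w.asIdeal →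
      Nonempty (M →ₐ[F] w.adicCompletion F))
    (hR : ∀ σ : F →+* ℝ, ∃ τ : M →+* ℝ, τ.comp (algebraMap F M) = σ)
    (hJ : Core f θ J 𝔮) (fD : M[X])
    (hfD : fD = (fF (f.scaleRoots ((Dp J : ℕ) : 𝓞 F))).map (algebraMap F M))
    (Θ : Ω) (hΘ : Θ = (Dp J : Ω) * algebraMap L Ω θ)
    (hmin : ∀ p : M[X], aeval Θ p = 0 → fD ∣ p) (hsur : ∀ x : Ω, ∃ p : M[X], aeval Θ p = x)
    (x : Ω) (hx : x ≠ 0) (hC : CC M fD Θ x) (hN : IsSquare (Algebra.norm M x)) : IsSquare x := by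
  have hG := H.isGen
  have hD0 : Dp J ≠ 0 := by
    rw [Dp, Finset.prod_ne_zero_iff]
    exact fun q hq => (H.goodS q (H.sub hq)).1.ne_zero
  refine Pool.Agent.N301.JM.tow' n F L M Ω two_ne_zero hM
    (by rw [hG.rank]; exact ⟨g, rfl⟩) hΩ (CC M fD Θ) (fun x _ => cc_sq hmin hsur x)
    (fun x y _ _ hx hy => cc_mul hmin hsur hx hy) ?_ ?_ x hx hC hN
  · intro σ x hx
    have hc : ∀ a : M, σ (algebraMap M Ω a) =
        algebraMap M Ω (((σ.restrictScalars F).restrictNormal M) a) := by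
      intro a
      rw [AlgEquiv.restrictNormal_commutes]
      rfl
    refine cc_aut ((σ.restrictScalars F).restrictNormal M).toRingEquiv ?_ σ.toRingEquiv ?_ ?_ hx
    · rw [hfD, Polynomial.map_map]
      congr 1
      ext a
      exact ((σ.restrictScalars F).restrictNormal M).commutes a
    · change σ Θ = Θ
      rw [hΘ, map_mul, map_natCast, σ.commutes]
    · intro a
      exact hc a
  · intro x hx0 hCx hNx
    obtain ⟨h, rfl⟩ := ex_poly hG hD0 x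
    have hcomp : aeval θ (h.comp (C ((Dp J : ℕ) : F) * X)) = aeval ((Dp J : L) * θ) h := by
      rw [aeval_comp, map_mul, aeval_C, aeval_X, map_natCast]
    rw [hΘ, hfD] at hCx
    obtain ⟨k1, k2⟩ := base H hGF hGL h hx0 hNx hCx
    have et : (Dp J : Ω) * algebraMap L Ω θ = algebraMap L Ω ((Dp J : L) * θ) := by
      rw [map_mul, map_natCast]
    have eH : aeval ((Dp J : Ω) * algebraMap L Ω θ) (h.map (algebraMap F M)) =
        algebraMap L Ω (aeval ((Dp J : L) * θ) h) := by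
      rw [et, aeval_up]
    obtain ⟨k3, k4⟩ := hCx _ eH
    have key := hJ (h.comp (C ((Dp J : ℕ) : F) * X))
    rw [hcomp] at key
    refine key hx0 hNx k1 k2 ?_ ?_
    · intro w hw
      obtain ⟨φ⟩ := h2 w hw
      exact two H w hw φ h k3
    · intro σ
      obtain ⟨τ, hτ⟩ := hR σ
      exact real H σ τ hτ h (k4 τ)

end

end Pool.Agent.L0h51.TM
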