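import Pool.Agent.L0h51.TM.Sel
import Pool.Agent.N874.QM.Stm

/-!
# The 2-Selmer group over `M`
-/

set_option autoImplicit false
set_option linter.all false

open Polynomial IsDedekindDomain NumberField WithZero Module
open scoped Classical IntermediateField

namespace Pool.Agent.L0h51.TM

open Pool.Agent.N783.PQ (LocIm)
open Pool.Agent.N874.JM (LocF)
open Pool.Agent.N783.PF
open Pool.Agent.N922.PQ (Gen SplitMod)

/-- `γ` generates `Ω` over `L`. -/
theorem top_up {K L M Ω : Type} [Field K] [Field L] [Field M] [Field Ω] [Algebra K L]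
    [Algebra K M] [Algebra L Ω] [Algebra M Ω] [Algebra K Ω] [IsScalarTower K L Ω]
    [IsScalarTower K M Ω] {γ : M} (hγ : K⟮γ⟯ = ⊤) {θ : L} (hθ : M⟮algebraMap L Ω θ⟯ = ⊤) :
    L⟮algebraMap M Ω γ⟯ = ⊤ := by
  let E : IntermediateField K Ω := (L⟮algebraMap M Ω γ⟯).restrictScalars K
  have h1 : ∀ x : M, algebraMap M Ω x ∈ E := by
    have h2 : K⟮γ⟯ ≤ E.comap (IsScalarTower.toAlgHom K M Ω) := by
      rw [IntermediateField.adjoin_simple_le_iff]
      exact IntermediateField.mem_adjoin_simple_self L (algebraMap M Ω γ)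
    intro x
    have h3 : x ∈ K⟮γ⟯ := by rw [hγ]; trivial
    exact h2 h3
  let E' : IntermediateField M Ω :=
    { E.toSubfield with
      algebraMap_mem' := h1 }
  have h4 : M⟮algebraMap L Ω θ⟯ ≤ E' := by
    rw [IntermediateField.adjoin_simple_le_iff]
    exact (L⟮algebraMap M Ω γ⟯).algebraMap_mem θ
  rw [hθ] at h4
  rw [eq_top_iff]
  intro x _
  exact h4 (show x ∈ (⊤ : IntermediateField M Ω) from trivial)

/-- Odd degree polynomials stay irreducible. -/
theorem irr_M {F M : Type} [Field F] [Field M] [Algebra F M] {n : ℕ}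
    (hM : finrank F M = 2 ^ n) {f : F[X]} (hf : Irreducible f) (hm : f.Monic)
    (ho : Odd f.natDegree) : Irreducible (f.map (algebraMap F M)) := by
  haveI : FiniteDimensional F M := .of_finrank_pos (by rw [hM]; positivity)
  have hmM := hm.map (algebraMap F M)
  obtain ⟨p, hp, hpd⟩ := Polynomial.exists_irreducible_of_natDegree_pos (f := f.map (algebraMap F M))
    (by rw [hm.natDegree_map]; exact ho.pos)
  haveI : Fact (Irreducible p) := ⟨hp⟩
  haveI : FiniteDimensional M (AdjoinRoot p) := PowerBasis.finite (AdjoinRoot.powerBasis hp.ne_zero)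
  haveI : FiniteDimensional F (AdjoinRoot p) := FiniteDimensional.trans F M (AdjoinRoot p)
  have h0 : aeval (AdjoinRoot.root p) f = 0 := by
    rw [← aeval_map_algebraMap M, AdjoinRoot.aeval_eq, AdjoinRoot.mk_eq_zero]
    exact hpd
  have h1 : minpoly F (AdjoinRoot.root p) = f := (minpoly.eq_of_irreducible_of_monic hf h0 hm).symm
  have h2 : f.natDegree ∣ finrank F (AdjoinRoot p) := by
    have := minpoly.degree_dvd (K := F) (x := AdjoinRoot.root p) (Algebra.IsIntegral.isIntegral _)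
    rwa [h1] at this
  rw [← finrank_mul_finrank F M (AdjoinRoot p), hM,
    (AdjoinRoot.powerBasis hp.ne_zero).finrank, AdjoinRoot.powerBasis_dim] at h2
  have h3 : f.natDegree ∣ p.natDegree :=
    (Nat.Coprime.dvd_mul_left (Nat.Coprime.pow_right n ((Nat.coprime_two_right).2 ho))).1 h2
  have h4 : f.natDegree ≤ p.natDegree := Nat.le_of_dvd hp.natDegree_pos h3
  exact (associated_of_dvd_of_natDegree_le hpd hmM.ne_zero (by rw [hm.natDegree_map]; exact h4)).irreducible hp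

theorem exists_field {M : Type} [Field M] {p : M[X]} (hp : Irreducible p) :
    ∃ (Ω : Type) (_ : Field Ω) (_ : Algebra M Ω) (Θ : Ω),
      aeval Θ p = 0 ∧ (∀ q : M[X], aeval Θ q = 0 → p ∣ q) ∧ (∀ x : Ω, ∃ q : M[X], aeval Θ q = x) ∧
      finrank M Ω = p.natDegree ∧ FiniteDimensional M Ω ∧
      ∀ q : M[X], Algebra.norm M (aeval Θ q) = Algebra.norm M (AdjoinRoot.mk p q) := by
  haveI hf : Fact (Irreducible p) := ⟨hp⟩
  refine ⟨AdjoinRoot p, inferInstance, inferInstance, AdjoinRoot.root p, ?_, ?_, ?_, ?_, ?_, ?_⟩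
  · rw [AdjoinRoot.aeval_eq, AdjoinRoot.mk_self]
  · intro q hq
    rwa [AdjoinRoot.aeval_eq, AdjoinRoot.mk_eq_zero] at hq
  · intro x
    obtain ⟨q, hq⟩ := AdjoinRoot.mk_surjective x
    exact ⟨q, by rw [AdjoinRoot.aeval_eq, hq]⟩
  · rw [(AdjoinRoot.powerBasis hp.ne_zero).finrank, AdjoinRoot.powerBasis_dim]
  · exact PowerBasis.finite (AdjoinRoot.powerBasis hp.ne_zero)
  · intro q
    rw [AdjoinRoot.aeval_eq]

theorem gen_F {F M : Type} [Field F] [NumberField F] [Field M] [NumberField M] [Algebra F M]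
    {γ : M} {m : ℤ[X]} {δ : ℤ} (h : Gen ℚ γ m δ) : Gen F γ m δ := by
  refine ⟨?_, h.monic, h.root, h.ne, h.comb⟩
  rw [eq_top_iff]
  intro x _
  have h1 : ℚ⟮γ⟯ ≤ (F⟮γ⟯).restrictScalars ℚ := by
    rw [IntermediateField.adjoin_simple_le_iff]
    exact IntermediateField.mem_adjoin_simple_self F γ
  have h2 : x ∈ ℚ⟮γ⟯ := by rw [h.top]; trivial
  exact h1 h2

theorem lift_gen {F L Ω : Type} [Field F] [NumberField F] [Field L] [NumberField L] [Algebra F L]
    [Field Ω] [Algebra F Ω] {g : ℕ} {f : (𝓞 F)[X]} {θ : L} (hG : IsGen g f θ)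
    (hirr : Irreducible (fF f)) {t : Ω} (ht : aeval t (fF f) = 0) :
    ∃ ψ : L →ₐ[F] Ω, ψ θ = t := by
  haveI hfact : Fact (Irreducible (fF f)) := ⟨hirr⟩
  have hmF : (fF f).Monic := hG.mon.map _
  obtain ⟨φ, hφ⟩ : ∃ φ : AdjoinRoot (fF f) →ₐ[F] L,
      φ = AdjoinRoot.liftAlgHom (fF f) (Algebra.ofId F _) θ hG.root := ⟨_, rfl⟩
  have hφmk : ∀ p : F[X], φ (AdjoinRoot.mk (fF f) p) = aeval θ p := by
    intro p
    have h1 := AdjoinRoot.liftAlgHom_mk (fF f) (Algebra.ofId F L) θ hG.root p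
    rw [Algebra.toRingHom_ofId, ← Polynomial.aeval_def] at h1
    rw [hφ]
    exact h1
  have hφinj : Function.Injective φ := φ.toRingHom.injective
  haveI : FiniteDimensional F (AdjoinRoot (fF f)) := hmF.finite_adjoinRoot
  haveI : FiniteDimensional F L := Module.finite_of_finrank_pos (by rw [hG.rank]; omega)
  have hrk : Module.finrank F (AdjoinRoot (fF f)) = Module.finrank F L := by
    rw [hG.rank, (AdjoinRoot.powerBasis hmF.ne_zero).finrank, AdjoinRoot.powerBasis_dim,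
      hG.mon.natDegree_map, hG.deg]
  have hφsurj : Function.Surjective φ :=
    (LinearMap.injective_iff_surjective_of_finrank_eq_finrank (f := φ.toLinearMap) hrk).1 hφinj
  let e : AdjoinRoot (fF f) ≃ₐ[F] L := AlgEquiv.ofBijective φ ⟨hφinj, hφsurj⟩
  obtain ⟨χ, hχ⟩ : ∃ χ : AdjoinRoot (fF f) →ₐ[F] Ω,
      χ = AdjoinRoot.liftAlgHom (fF f) (Algebra.ofId F _) t ht := ⟨_, rfl⟩
  have hχmk : ∀ p : F[X], χ (AdjoinRoot.mk (fF f) p) = aeval t p := by
    intro p
    have h1 := AdjoinRoot.liftAlgHom_mk (fF f) (Algebra.ofId F Ω) t ht p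
    rw [Algebra.toRingHom_ofId, ← Polynomial.aeval_def] at h1
    rw [hχ]
    exact h1
  refine ⟨χ.comp e.symm, ?_⟩
  have h1 : e (AdjoinRoot.mk (fF f) X) = θ := by
    change φ _ = θ
    rw [hφmk, aeval_X]
  have h2 : e.symm θ = AdjoinRoot.mk (fF f) X := by
    rw [AlgEquiv.symm_apply_eq, h1]
  rw [AlgHom.comp_apply]
  change χ (e.symm θ) = t
  rw [h2, hχmk, aeval_X]

theorem locIm_cg {E : Type} [Field E] {f h k : E[X]} (H : LocIm E f h) (hk : f ∣ k - h) :
    LocIm E f k :=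
  locIm_mul (h' := 1) H (locIm_sq (s := 1) (by simp)) (by simpa using hk)

/-- The 2-Selmer group over `M` of the twist is zero. -/
theorem selM {F L M : Type} [Field F] [NumberField F] [Field L] [NumberField L] [Field M]
    [NumberField M] [Algebra F L] [Algebra F M] [IsGalois F M] {n : ℕ}
    (hM : finrank F M = 2 ^ n)
    (h2 : ∀ w : HeightOneSpectrum (𝓞 F), (2 : 𝓞 F) ∈ w.asIdeal →
      Nonempty (M →ₐ[F] w.adicCompletion F))
    (hR : ∀ σ : F →+* ℝ, ∃ τ : M →+* ℝ, τ.comp (algebraMap F M) = σ)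
    {g W : ℕ} {f f₁ : (𝓞 F)[X]} {θ : L} {S J : Finset ℕ} {𝔮 : ℕ → Ideal (𝓞 F)}
    {r P : ℕ → (𝓞 F)[X]} {m : ℤ[X]} {δ : ℤ} (H : Dat g W f f₁ θ S J 𝔮 r P m δ) {γ : M}
    (hγ : Gen ℚ γ m δ) (hirr : Irreducible (fF f)) (hJ : Core f θ J 𝔮) :
    Pool.Agent.N874.QM.SelM M
      ((fF (f.scaleRoots ((Dp J : ℕ) : 𝓞 F))).map (algebraMap F M)) := by
  have hG := H.isGen
  have hD0 : Dp J ≠ 0 := by
    rw [Dp, Finset.prod_ne_zero_iff]
    exact fun q hq => (H.goodS q (H.sub hq)).1.ne_zero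
  have hD0F : ((Dp J : ℕ) : F) ≠ 0 := Nat.cast_ne_zero.2 hD0
  obtain ⟨fD, hfD⟩ : ∃ fD : M[X], fD = (fF (f.scaleRoots ((Dp J : ℕ) : 𝓞 F))).map (algebraMap F M) :=
    ⟨_, rfl⟩
  have hmF : (fF (f.scaleRoots ((Dp J : ℕ) : 𝓞 F))).Monic :=
    ((monic_scaleRoots_iff ((Dp J : ℕ) : 𝓞 F)).2 hG.mon).map _
  have hdF : (fF (f.scaleRoots ((Dp J : ℕ) : 𝓞 F))).natDegree = 2 * g + 1 := by
    rw [fF, ((monic_scaleRoots_iff ((Dp J : ℕ) : 𝓞 F)).2 hG.mon).natDegree_map,
      natDegree_scaleRoots, hG.deg]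
  have hirrD : Irreducible fD := by
    rw [hfD]
    refine irr_M hM ?_ hmF (by rw [hdF]; exact ⟨g, rfl⟩)
    rw [Pool.Agent.N170.PF.fF_scale hG.mon]
    exact Pool.Agent.N170.PF.irr_scale hD0F hirr
  rw [← hfD]
  obtain ⟨Ω, _, _, Θ, hroot, hmin, hsur, hrk, hfd, hnorm⟩ := exists_field hirrD
  haveI : NumberField Ω := NumberField.of_module_finite M Ω
  letI : Algebra F Ω := ((algebraMap M Ω).comp (algebraMap F M)).toAlgebra
  haveI : IsScalarTower F M Ω := IsScalarTower.of_algebraMap_eq fun _ => rfl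
  have hDΩ : ((Dp J : ℕ) : Ω) ≠ 0 := Nat.cast_ne_zero.2 hD0
  have ht : aeval (((Dp J : ℕ) : Ω)⁻¹ * Θ) (fF f) = 0 := by
    have e1 := scaleRoots_eval₂_mul (p := fF f) (algebraMap F Ω) (((Dp J : ℕ) : Ω)⁻¹ * Θ)
      ((Dp J : ℕ) : F)
    have e2 : eval₂ (algebraMap F Ω) ((algebraMap F Ω) ((Dp J : ℕ) : F) *
        (((Dp J : ℕ) : Ω)⁻¹ * Θ)) ((fF f).scaleRoots ((Dp J : ℕ) : F)) = 0 := by
      rw [map_natCast, mul_inv_cancel_left₀ hDΩ, ← aeval_def, ← Pool.Agent.N170.PF.fF_scale hG.mon,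
        ← aeval_map_algebraMap M, ← hfD]
      exact hroot
    rw [e2] at e1
    rw [aeval_def]
    refine (mul_eq_zero.1 e1.symm).resolve_left (pow_ne_zero _ ?_)
    rw [map_natCast]
    exact hDΩ
  obtain ⟨ψ, hψ⟩ := lift_gen hG hirr ht
  letI : Algebra L Ω := ψ.toRingHom.toAlgebra
  haveI : IsScalarTower F L Ω := IsScalarTower.of_algebraMap_eq fun x => (ψ.commutes x).symm
  have hθ : algebraMap L Ω θ = ((Dp J : ℕ) : Ω)⁻¹ * Θ := hψ
  have hΘ : Θ = ((Dp J : ℕ) : Ω) * algebraMap L Ω θ := by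
    rw [hθ, mul_inv_cancel_left₀ hDΩ]
  have htop : M⟮algebraMap L Ω θ⟯ = ⊤ := by
    rw [eq_top_iff]
    intro x _
    obtain ⟨q, rfl⟩ := hsur x
    have h1 : Θ ∈ M⟮algebraMap L Ω θ⟯ := by
      rw [hΘ]
      exact mul_mem (natCast_mem _ _) (IntermediateField.mem_adjoin_simple_self M _)
    rw [aeval_eq_sum_range]
    exact sum_mem fun i _ => IntermediateField.smul_mem _ (pow_mem h1 i)
  have hGL : Gen L (algebraMap M Ω γ) m δ := by
    refine ⟨top_up (K := F) (gen_F hγ).top htop, hγ.monic, ?_, hγ.ne, hγ.comb⟩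
    rw [aeval_algebraMap_apply, hγ.root, map_zero]
  intro h hcop hN hloc hreal
  have hne : aeval Θ h ≠ 0 := by
    intro h0
    obtain ⟨u, v, huv⟩ := hcop
    have := congrArg (aeval Θ) huv
    rw [map_add, map_mul, map_mul, hroot, h0, mul_zero, mul_zero, add_zero, map_one] at this
    exact zero_ne_one this
  have hCC : CC M fD Θ (aeval Θ h) := by
    intro h' hh'
    have h1 : fD ∣ h' - h := hmin _ (by rw [map_sub, hh', sub_self])
    refine ⟨fun w => ?_, fun τ => ?_⟩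
    · have h3 := Polynomial.map_dvd (algebraMap M (w.adicCompletion M)) h1
      rw [Polynomial.map_sub] at h3
      exact locIm_cg (hloc w) h3
    · have h3 := Polynomial.map_dvd τ h1
      rw [Polynomial.map_sub] at h3
      exact locIm_cg (hreal τ) h3
  obtain ⟨y, hy⟩ := desc H (gen_F hγ) hGL hM
    (by rw [hrk, hG.rank, hfD, hmF.natDegree_map, hdF]) h2 hR hJ fD hfD Θ hΘ hmin hsur _ hne hCC
    (by rw [hnorm]; exact hN)
  obtain ⟨s, rfl⟩ := hsur y
  refine ⟨s, hmin _ ?_⟩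
  rw [map_sub, map_pow, hy, pow_two, sub_self]

end Pool.Agent.L0h51.TM
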