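import Pool.Agent.L0h51.TM.Desc
import Pool.Agent.L0h51.TM.Alg
import Pool.Agent.N783.PF.Final

/-!
# The base case of the descent along `M / F`
-/

set_option autoImplicit false
set_option linter.all false

open Polynomial IsDedekindDomain NumberField WithZero
open scoped Classical

namespace Pool.Agent.L0h51.TM

open Pool.Agent.N874.PP (Ev Sq1 U0)
open Pool.Agent.N783.PQ (LocIm)
open Pool.Agent.N874.JM (LocF)
open Pool.Agent.N874.PM (Lies)
open Pool.Agent.N783.PF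
open Pool.Agent.N922.PQ (ev_down sq_down Gen SplitMod ov_val ov_down)
open Pool.Agent.N78.PF (LOC1 LOC2 fF_scale eq_of_ov val_one two_cast val_theta val_der rd_eq sp_le
  map_locF)

theorem pin : S_PIN := Pool.Agent.N426.PF.pin int
theorem par : S_PAR := Pool.Agent.N426.PF.par int
theorem parq : S_PARQ := Pool.Agent.N426.PF.parq int exq
theorem ram : S_RAM := Pool.Agent.N459.PF.ram int
theorem lieF : S_LIE := Pool.Agent.N459.PF.lie

section

variable {F L M Ω : Type} [Field F] [NumberField F] [Field L] [NumberField L] [Field M]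
  [NumberField M] [Field Ω] [NumberField Ω] [Algebra F L] [Algebra F M] [Algebra L Ω]
  [Algebra M Ω] [Algebra F Ω] [IsScalarTower F L Ω] [IsScalarTower F M Ω]

/-- The data of the twist. -/
structure Dat (g W : ℕ) (f f₁ : (𝓞 F)[X]) (θ : L) (S J : Finset ℕ) (𝔮 : ℕ → Ideal (𝓞 F))
    (r P : ℕ → (𝓞 F)[X]) (m : ℤ[X]) (δ : ℤ) : Prop where
  pos : 1 ≤ g
  isGen : IsGen g f θ
  sqF : SqF g f
  good : GoodF g W f₁
  goodS : GoodS g W S 𝔮 r P
  cg1 : Cg (sp F W) f f₁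
  cgq : ∀ q ∈ S, Cg (sp F q) f (P q)
  sub : J ⊆ S
  irr : ∀ 𝔭 : Ideal (𝓞 F), 𝔭.IsPrime → (W : 𝓞 F) ∈ 𝔭 → Irreducible (rd 𝔭 f₁)
  dW : ∀ p : ℕ, p.Prime → (p : ℤ) ∣ δ → p ∣ W
  spl : ∀ q ∈ S, SplitMod (q : ℤ) m

theorem no_ov {g W : ℕ} {f f₁ : (𝓞 F)[X]} {θ : L} {S J : Finset ℕ} {𝔮 : ℕ → Ideal (𝓞 F)}
    {r P : ℕ → (𝓞 F)[X]} {m : ℤ[X]} {δ : ℤ} (h : Dat g W f f₁ θ S J 𝔮 r P m δ) (hδ0 : δ ≠ 0)
    {w : HeightOneSpectrum (𝓞 F)} {𝔓 : HeightOneSpectrum (𝓞 L)}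
    (hL2 : ∀ a : 𝓞 F, a ∈ w.asIdeal ↔ algebraMap (𝓞 F) (𝓞 L) a ∈ 𝔓.asIdeal)
    (hW : (W : 𝓞 F) ∉ w.asIdeal) : ¬ Pool.Agent.N922.PQ.Ov δ 𝔓 := by
  intro ho
  have h1 : ((δ.natAbs : ℕ) : 𝓞 F) ∈ w.asIdeal := by
    rw [hL2, map_natCast]
    unfold Pool.Agent.N922.PQ.Ov at ho
    rcases Int.natAbs_eq δ with h2 | h2
    · have h3 : ((δ.natAbs : ℕ) : 𝓞 L) = (δ : 𝓞 L) := by
        conv_rhs => rw [h2]
        simp
      rw [h3]
      exact ho
    · have h3 : ((δ.natAbs : ℕ) : 𝓞 L) = -(δ : 𝓞 L) := by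
        conv_rhs => rw [h2]
        simp
      rw [h3]
      exact 𝔓.asIdeal.neg_mem ho
  obtain ⟨p, hp, hpd, hpm⟩ := Pool.Agent.N951.PF.prime_factor w.asIdeal w.isPrime δ.natAbs
    (Int.natAbs_pos.2 hδ0) h1
  obtain ⟨k, hk⟩ := h.dW p hp (Int.natCast_dvd.2 hpd)
  apply hW
  rw [hk]
  push_cast
  exact Ideal.mul_mem_right _ _ hpm

theorem base {g W : ℕ} {f f₁ : (𝓞 F)[X]} {θ : L} {S J : Finset ℕ} {𝔮 : ℕ → Ideal (𝓞 F)}
    {r P : ℕ → (𝓞 F)[X]} {m : ℤ[X]} {δ : ℤ} (H : Dat g W f f₁ θ S J 𝔮 r P m δ) {γ : M}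
    (hGF : Gen F γ m δ) (hGL : Gen L (algebraMap M Ω γ) m δ) (h : F[X])
    (hne : aeval ((Dp J : L) * θ) h ≠ 0) (hN : IsSquare (Algebra.norm F (aeval ((Dp J : L) * θ) h)))
    (hC : CC M ((fF (f.scaleRoots ((Dp J : ℕ) : 𝓞 F))).map (algebraMap F M))
      ((Dp J : Ω) * algebraMap L Ω θ) (algebraMap L Ω (aeval ((Dp J : L) * θ) h))) :
    (∀ 𝔓 : HeightOneSpectrum (𝓞 L), (∀ q ∈ J, Ov (𝔮 q) 𝔓 → 𝔓.valuation L θ ≠ 1) →
      Ev 𝔓 (aeval ((Dp J : L) * θ) h)) ∧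
    (∀ q ∈ J, ∀ 𝔓 : HeightOneSpectrum (𝓞 L), Ov (𝔮 q) 𝔓 → 𝔓.valuation L θ = 1 →
      U0 𝔓 ((q : L) * θ) (aeval ((Dp J : L) * θ) h)) := by
  have hg := H.pos
  have hG := H.isGen
  have hsq := H.sqF
  have hF := H.good
  have hS := H.goodS
  have hc1 := H.cg1
  have hcq := H.cgq
  have hJS := H.sub
  have hδ0 := hGF.ne
  have hqp : ∀ q ∈ S, q.Prime := fun q hq => (hS q hq).1
  have hcQ : ∀ q ∈ S, Cg (𝔮 q) f (X * r q) := by
    intro q hq j
    obtain ⟨-, -, -, -, -, -, a2, -, -, -, -, -, -, a3, -⟩ := hS q hq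
    have b1 := sp_le (F := F) a2 (hcq q hq j)
    have b2 := a3 j
    have := Ideal.add_mem _ b1 b2
    simpa using this
  have hqne : ∀ q ∈ S, 𝔮 q ≠ ⊥ := by
    intro q hq h0
    obtain ⟨a1, -, -, -, -, -, a2, -⟩ := hS q hq
    rw [h0, Ideal.mem_bot] at a2
    exact a1.ne_zero (by exact_mod_cast a2)
  have hqpr : ∀ q ∈ S, (𝔮 q).IsPrime := by
    intro q hq
    obtain ⟨-, -, -, -, -, a1, -⟩ := hS q hq
    exact a1
  obtain ⟨D, hD⟩ : ∃ D : ℕ, D = Dp J := ⟨_, rfl⟩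
  rw [← hD] at hne hN hC ⊢
  refine ⟨?_, ?_⟩
  · -- even valuations
    intro 𝔓 h𝔓
    obtain ⟨w, w1, w2, w3⟩ := lieF F L 𝔓
    have hL : Lies (M := F) (Ω := L) w 𝔓 := ⟨fun x => (w3 x).1, fun x => (w3 x).2⟩
    by_cases hW : (W : 𝓞 F) ∈ w.asIdeal
    · -- small primes
      have e1 := rd_eq (sp_le hW) hc1
      exact pin g F L f θ hG hsq w.asIdeal w.isPrime w.ne_bot
        (by rw [e1]; exact H.irr _ w.isPrime hW) _ hne hN 𝔓 w1
    · have c2 : (2 : 𝓞 F) ∉ w.asIdeal := by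
        intro c2
        apply hW
        obtain ⟨k, hk⟩ := hF.two
        rw [hk]
        push_cast
        exact Ideal.mul_mem_right _ _ c2
      by_cases cq : ∃ q ∈ J, (q : 𝓞 F) ∈ w.asIdeal
      · obtain ⟨q, hq, hqw⟩ := cq
        have hqS := hJS hq
        by_cases cw : w.asIdeal = 𝔮 q
        · have o1 : Ov (𝔮 q) 𝔓 := by
            rw [← cw]
            exact w1
          have v1 : 𝔓.valuation L θ < 1 := lt_of_le_of_ne (val_theta hG 𝔓) (h𝔓 q hq o1)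
          exact parq g W F L f θ S 𝔮 r P hg hG hsq hS q hqS (hcQ q hqS) _ hne hN 𝔓 o1 v1
        · have e1 := rd_eq (sp_le hqw) (hcq q hqS)
          obtain ⟨-, -, -, -, -, -, -, -, -, -, -, -, -, -, a1⟩ := hS q hqS
          exact pin g F L f θ hG hsq w.asIdeal w.isPrime w.ne_bot
            (by rw [e1]; exact a1 _ w.isPrime hqw cw) _ hne hN 𝔓 w1
      · -- primes not dividing `2 D`
        have hDw : (D : 𝓞 F) ∉ w.asIdeal := by
          intro hd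
          rw [hD, Dp, Nat.cast_prod] at hd
          haveI := w.isPrime
          obtain ⟨q, hq, hqw⟩ := (Ideal.IsPrime.prod_mem_iff).1 hd
          exact cq ⟨q, hq, hqw⟩
        have key : ∀ (𝔓' : HeightOneSpectrum (𝓞 L)), Lies (M := F) (Ω := L) w 𝔓' →
            (∀ a : 𝓞 F, a ∈ w.asIdeal ↔ algebraMap (𝓞 F) (𝓞 L) a ∈ 𝔓'.asIdeal) →
            𝔓'.valuation L (aeval θ (derivative (fF f))) = 1 →
            Ev 𝔓' (aeval ((D : L) * θ) h) := by
          intro 𝔓' hL' hL2' cu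
          obtain ⟨𝔔, h𝔔⟩ := (Pool.Agent.N362.PQ.ur L Ω (𝓞 L) (𝓞 Ω) _ m δ hGL).2 𝔓'
            (no_ov H hδ0 hL2' hW)
          exact ev_unitM hG hL' c2 hDw h𝔔 cu h hne hC
        by_cases cu : 𝔓.valuation L (aeval θ (derivative (fF f))) = 1
        · exact key 𝔓 hL w2 cu
        · have v1 : 𝔓.valuation L (aeval θ (derivative (fF f))) < 1 :=
            lt_of_le_of_ne (val_der hG 𝔓) cu
          obtain ⟨⟨c, hc⟩, hother⟩ := ram g F L f θ hG hsq w.asIdeal w.isPrime w.ne_bot 𝔓 w1 v1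
          refine par g F L f θ hG hsq w.asIdeal w.isPrime w.ne_bot 𝔓 c w1 hc _ hne hN ?_
          intro 𝔓' o' n'
          obtain ⟨w', u1, u2, u3⟩ := lieF F L 𝔓'
          obtain rfl : w = w' := by
            ext1
            exact eq_of_ov w.isPrime w.ne_bot o' u2
          have hL' : Lies (M := F) (Ω := L) w 𝔓' := ⟨fun x => (u3 x).1, fun x => (u3 x).2⟩
          exact key 𝔓' hL' u2 (hother 𝔓' o' n')
  · -- the primes in `J`
    intro q hq 𝔓 o1 v1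
    have hqS := hJS hq
    obtain ⟨w, w1, w2, w3⟩ := lieF F L 𝔓
    have hL : Lies (M := F) (Ω := L) w 𝔓 := ⟨fun x => (w3 x).1, fun x => (w3 x).2⟩
    have ew : 𝔮 q = w.asIdeal := eq_of_ov (hqpr q hqS) (hqne q hqS) o1 w2
    obtain ⟨a1, a2, a3, a4, a5, a6, a7, a8, a9, a10, a11, a12, a13, a14, a15⟩ := hS q hqS
    have h2w : (2 : 𝓞 F) ∉ 𝔮 q := by
      intro hm
      have h9 : ((q : 𝓞 F)) - 2 * ((q / 2 : ℕ) : 𝓞 F) = 1 := by
        have h10 : q = 2 * (q / 2) + 1 := by omega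
        have h11 : (q : 𝓞 F) = 2 * ((q / 2 : ℕ) : 𝓞 F) + 1 := by
          exact_mod_cast congrArg (Nat.cast (R := 𝓞 F)) h10
        rw [h11]
        ring
      apply a6.ne_top
      rw [Ideal.eq_top_iff_one, ← h9]
      exact Ideal.sub_mem _ a7 (Ideal.mul_mem_right _ _ hm)
    have cop_mem : ∀ p : ℕ, Nat.Coprime p q → (p : 𝓞 F) ∉ 𝔮 q := by
      intro p hco hpm
      obtain ⟨u, v, huv⟩ := (Nat.isCoprime_iff_coprime.2 hco)
      apply a6.ne_top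
      rw [Ideal.eq_top_iff_one]
      have h9 : (1 : 𝓞 F) = (u : 𝓞 F) * (p : 𝓞 F) + (v : 𝓞 F) * (q : 𝓞 F) := by
        have := congrArg (Int.cast (R := 𝓞 F)) huv
        push_cast at this
        exact this.symm
      rw [h9]
      exact Ideal.add_mem _ (Ideal.mul_mem_left _ _ hpm) (Ideal.mul_mem_left _ _ a7)
    have a10' : Irreducible (rd w.asIdeal (r q)) := ew ▸ a10
    obtain ⟨D', hD'⟩ : ∃ D' : ℕ, D' = ∏ p ∈ J.erase q, p := ⟨_, rfl⟩
    have hDD : D = q * D' := by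
      rw [hD, hD']
      exact (Finset.mul_prod_erase J (fun P => P) hq).symm
    have hD'm : (D' : 𝓞 F) ∉ 𝔮 q := by
      refine cop_mem D' ?_
      rw [hD']
      refine Nat.Coprime.prod_left fun p hp => ?_
      have hp' := Finset.mem_erase.1 hp
      exact (Nat.coprime_primes (hqp p (hJS hp'.2)) a1).2 hp'.1
    have hWm : (W : 𝓞 F) ∉ w.asIdeal := by
      rw [← ew]
      refine cop_mem W ?_
      rw [Nat.coprime_comm, Nat.Prime.coprime_iff_not_dvd a1]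
      exact fun hd => absurd (Nat.le_of_dvd hF.pos hd) (by omega)
    obtain ⟨𝔓₁, 𝔓₂, e1, e2, e3, e4, e5, e6, e7⟩ :=
      exq g W F L f θ S 𝔮 r P hg hG hsq hS q hqS (hcQ q hqS)
    have vq : 𝔓.valuation L (q : L) = WithZero.exp (-1 : ℤ) := by
      rcases e7 𝔓 o1 with rfl | rfl
      · exact e5
      · exact e6
    obtain ⟨c1, -, -, -⟩ := csq g W F L f θ S 𝔮 r P hg hG hsq hS q hqS (hcQ q hqS) 𝔓 o1 v1
    have s1 : Sq1 𝔓 (-1 : L) := by
      have := c1 (-1) (by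
        intro hm
        apply a6.ne_top
        rw [Ideal.eq_top_iff_one]
        have := Ideal.neg_mem_iff _ |>.2 hm
        simpa using this)
      simpa using this
    have s2 : Sq1 𝔓 ((D' : ℕ) : L) := by
      have := c1 (D' : 𝓞 F) hD'm
      simpa using this
    rw [hDD] at hne hC ⊢
    refine u0M hg hG hL w2 ?_ a1 ?_ ?_ hGF hGL (no_ov H hδ0 w2 hWm) (H.spl q hqS) a8 a9 a10' ?_
      v1 vq s1 s2 h hne hC
    · rw [← ew]
      exact h2w
    · rw [← ew]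
      exact a7
    · rw [← ew]
      exact hD'm
    · rw [← ew]
      exact hcQ q hqS

theorem two {g W : ℕ} {f f₁ : (𝓞 F)[X]} {θ : L} {S J : Finset ℕ} {𝔮 : ℕ → Ideal (𝓞 F)}
    {r P : ℕ → (𝓞 F)[X]} {m : ℤ[X]} {δ : ℤ} (H : Dat g W f f₁ θ S J 𝔮 r P m δ)
    (w : HeightOneSpectrum (𝓞 F)) (hw : (2 : 𝓞 F) ∈ w.asIdeal) (φ : M →ₐ[F] w.adicCompletion F)
    (h : F[X])
    (hC : ∀ w' : HeightOneSpectrum (𝓞 M), LocF (w'.adicCompletion M)
      ((fF (f.scaleRoots ((Dp J : ℕ) : 𝓞 F))).map (algebraMap F M)) (h.map (algebraMap F M))) :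
    LocF (w.adicCompletion F) (fF f) (h.comp (C ((Dp J : ℕ) : F) * X)) := by
  have hG := H.isGen
  have hS := H.goodS
  have hJS := H.sub
  obtain ⟨D, hD⟩ : ∃ D : ℕ, D = Dp J := ⟨_, rfl⟩
  rw [← hD] at hC ⊢
  have hD0 : D ≠ 0 := by
    rw [hD, Dp, Finset.prod_ne_zero_iff]
    exact fun q hq => (hS q (hJS hq)).1.ne_zero
  have hD8 : D % 8 = 1 := by
    rw [hD]
    have : ∀ T : Finset ℕ, T ⊆ S → (∏ q ∈ T, q) % 8 = 1 := by
      intro T
      induction T using Finset.induction_on with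
      | empty => intro _; rfl
      | insert a T ha ih =>
        intro hT
        rw [Finset.prod_insert ha, Nat.mul_mod, ih fun x hx => hT (Finset.mem_insert_of_mem hx),
          (hS a (hT (Finset.mem_insert_self _ _))).2.2.2.1]
    exact this J hJS
  haveI : Fact (Nat.Prime 2) := ⟨Nat.prime_two⟩
  obtain ⟨δ, hδ⟩ := Pool.Agent.N891.PQ.sq_two D hD8
  obtain ⟨ι, hι, -, -⟩ := Pool.Agent.N498.PQ.cpl F 2 w (by
    change ((2 : ℕ) : 𝓞 F) ∈ w.asIdeal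
    exact_mod_cast hw)
  haveI : CharZero (w.adicCompletion F) :=
    charZero_of_injective_algebraMap (algebraMap F (w.adicCompletion F)).injective
  obtain ⟨w', j, hj⟩ := emb_ext w φ
  have e1 : (j.comp (algebraMap M (w'.adicCompletion M))).comp (algebraMap F M) =
      algebraMap F (w.adicCompletion F) :=
    RingHom.ext fun a => by
      rw [RingHom.comp_apply, RingHom.comp_apply, hj, φ.commutes]
  have h1 := locIm_map j (hC w')
  simp only [Polynomial.map_map] at h1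
  have h2 : LocIm (w.adicCompletion F)
      ((fF (f.scaleRoots ((D : ℕ) : 𝓞 F))).map (algebraMap F (w.adicCompletion F)))
      (h.map (algebraMap F (w.adicCompletion F))) := by
    rw [← e1]
    simpa only [fF, Polynomial.map_map, RingHom.comp_assoc] using h1
  exact map_locF hG.mon hG.deg hD0 (ι δ) (by rw [← map_pow, hδ, map_natCast]) h h2

theorem real {g W : ℕ} {f f₁ : (𝓞 F)[X]} {θ : L} {S J : Finset ℕ} {𝔮 : ℕ → Ideal (𝓞 F)}
    {r P : ℕ → (𝓞 F)[X]} {m : ℤ[X]} {δ : ℤ} (H : Dat g W f f₁ θ S J 𝔮 r P m δ)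
    (σ : F →+* ℝ) (τ : M →+* ℝ) (hτ : τ.comp (algebraMap F M) = σ) (h : F[X])
    (hC : LocIm ℝ (((fF (f.scaleRoots ((Dp J : ℕ) : 𝓞 F))).map (algebraMap F M)).map τ)
      ((h.map (algebraMap F M)).map τ)) :
    LocIm ℝ ((fF f).map σ) ((h.comp (C ((Dp J : ℕ) : F) * X)).map σ) := by
  have hG := H.isGen
  have hS := H.goodS
  have hJS := H.sub
  obtain ⟨D, hD⟩ : ∃ D : ℕ, D = Dp J := ⟨_, rfl⟩
  rw [← hD] at hC ⊢
  have hD0 : D ≠ 0 := by
    rw [hD, Dp, Finset.prod_ne_zero_iff]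
    exact fun q hq => (hS q (hJS hq)).1.ne_zero
  rw [Polynomial.map_map, Polynomial.map_map _ τ, hτ] at hC
  letI : Algebra F ℝ := σ.toAlgebra
  exact map_locF (E := ℝ) hG.mon hG.deg hD0 (Real.sqrt D) (Real.sq_sqrt (Nat.cast_nonneg D)) h hC

end

end Pool.Agent.L0h51.TM
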