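import Pool.Agent.L0h51.TM.Main

/-!
# Multiquadratic extensions
-/

set_option autoImplicit false
set_option linter.all false

open Polynomial IsDedekindDomain NumberField Module
open scoped Classical

namespace Pool.Agent.L0h51.TM

theorem splits_sq {K : Type} [Field K] {d : K} (h : IsSquare d) : (X ^ 2 - C d : K[X]).Splits := by
  obtain ⟨s, rfl⟩ := h
  have e : (X ^ 2 - C (s * s) : K[X]) = (X - C s) * (X - C (-s)) := by
    rw [C_mul, C_neg]
    ring
  rw [e]
  exact (Splits.X_sub_C _).mul (Splits.X_sub_C _)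

theorem exists_M (F : Type) [Field F] [NumberField F] (T : Finset F)
    (hR : ∀ d ∈ T, ∀ σ : F →+* ℝ, 0 ≤ σ d)
    (h2 : ∀ d ∈ T, ∀ w : HeightOneSpectrum (𝓞 F), (2 : 𝓞 F) ∈ w.asIdeal →
      IsSquare (algebraMap F (w.adicCompletion F) d)) :
    ∃ (M : Type) (_ : Field M) (_ : NumberField M) (_ : Algebra F M) (n : ℕ), Ext F M n ∧
      ∀ d ∈ T, IsSquare (algebraMap F M d) := by
  obtain ⟨P, hP⟩ : ∃ P : F[X], P = ∏ d ∈ T, (X ^ 2 - C d) := ⟨_, rfl⟩
  have hsp : ∀ (K : Type) [Field K] [Algebra F K], (∀ d ∈ T, IsSquare (algebraMap F K d)) →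
      (P.map (algebraMap F K)).Splits := by
    intro K _ _ hK
    rw [hP, Polynomial.map_prod]
    refine Splits.prod fun d hd => ?_
    rw [Polynomial.map_sub, Polynomial.map_pow, map_X, map_C]
    exact splits_sq (hK d hd)
  have hev : ∀ (K : Type) [Field K] [Algebra F K] (x : K),
      aeval x P = ∏ d ∈ T, (x ^ 2 - algebraMap F K d) := by
    intro K _ _ x
    rw [hP, map_prod]
    refine Finset.prod_congr rfl fun d _ => ?_
    rw [map_sub, map_pow, aeval_X, aeval_C]
  let M := P.SplittingField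
  haveI : NumberField M := NumberField.of_module_finite F M
  haveI : Normal F M := Normal.of_isSplittingField P
  haveI : IsGalois F M := IsGalois.mk
  have hP0 : P ≠ 0 := by
    rw [hP]
    refine Finset.prod_ne_zero_iff.2 fun d _ => ?_
    exact X_pow_sub_C_ne_zero two_pos d
  have hroot : ∀ x ∈ P.rootSet M, ∃ d ∈ T, x ^ 2 = algebraMap F M d := by
    intro x hx
    rw [mem_rootSet_of_ne hP0, hev, Finset.prod_eq_zero_iff] at hx
    obtain ⟨d, hd, hx⟩ := hx
    exact ⟨d, hd, sub_eq_zero.1 hx⟩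
  have hinv : ∀ σ : M ≃ₐ[F] M, σ ^ 2 = 1 := by
    intro σ
    have h1 : ((σ ^ 2 : M ≃ₐ[F] M) : M →ₐ[F] M) = AlgHom.id F M := by
      refine AlgHom.ext_of_adjoin_eq_top (IsSplittingField.adjoin_rootSet M P) fun x hx => ?_
      obtain ⟨d, hd, hxd⟩ := hroot x hx
      have h3 : (σ x) ^ 2 = x ^ 2 := by
        rw [← map_pow, hxd, σ.commutes]
      change (σ ^ 2) x = x
      rw [pow_two, AlgEquiv.mul_apply]
      rcases sq_eq_sq_iff_eq_or_eq_neg.1 h3 with h | h
      · rw [h, h]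
      · rw [h, map_neg, h, neg_neg]
    ext x
    exact DFunLike.congr_fun h1 x
  haveI : Fact (Nat.Prime 2) := ⟨Nat.prime_two⟩
  have hpg : IsPGroup 2 (M ≃ₐ[F] M) := fun σ => ⟨1, by rw [pow_one]; exact hinv σ⟩
  obtain ⟨n, hn⟩ := IsPGroup.iff_card.1 hpg
  refine ⟨M, inferInstance, inferInstance, inferInstance, n, ⟨inferInstance, ?_, ?_, ?_⟩, ?_⟩
  · rw [← hn, IsGalois.card_aut_eq_finrank]
  · intro w hw
    exact ⟨IsSplittingField.lift M P (hsp _ fun d hd => h2 d hd w hw)⟩
  · intro σ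
    letI : Algebra F ℝ := σ.toAlgebra
    have h3 : (P.map (algebraMap F ℝ)).Splits := by
      refine hsp ℝ fun d hd => ?_
      have h4 : 0 ≤ algebraMap F ℝ d := hR d hd σ
      exact ⟨Real.sqrt (algebraMap F ℝ d), (Real.mul_self_sqrt h4).symm⟩
    refine ⟨(IsSplittingField.lift M P h3 : M →ₐ[F] ℝ).toRingHom, ?_⟩
    ext a
    exact (IsSplittingField.lift M P h3 : M →ₐ[F] ℝ).commutes a
  · intro d hd
    have hs : ((X ^ 2 - C d : F[X]).map (algebraMap F M)).Splits := by
      refine (IsSplittingField.splits M P).of_dvd (Polynomial.map_ne_zero hP0) ?_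
      exact Polynomial.map_dvd _ (hP ▸ Finset.dvd_prod_of_mem _ hd)
    have hdeg : ((X ^ 2 - C d : F[X]).map (algebraMap F M)).degree ≠ 0 := by
      rw [degree_map, degree_X_pow_sub_C two_pos]
      norm_num
    obtain ⟨s, hs⟩ := Splits.exists_eval_eq_zero hs hdeg
    rw [Polynomial.map_sub, Polynomial.map_pow, map_X, map_C, eval_sub, eval_pow, eval_X,
      eval_C] at hs
    exact ⟨s, by rw [← pow_two]; exact (sub_eq_zero.1 hs).symm⟩

end Pool.Agent.L0h51.TM
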